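import Mathlib

set_option autoImplicit false

/-!
Points and non-crossing arcs on a line: the relations inside and to the left form a plane forest,
so every finite set has a nontrivial module.
-/

namespace Pool.Agent.U97.NC

section abs

variable {α : Type} [LinearOrder α] {ι : Type} (P : ι → Prop) (l r : ι → α)

/-- `m` is to the left of `n` -/
def Lf (m n : ι) : Prop := m ≠ n ∧ r m ≤ l n

/-- `m` is inside `n` -/
def In (m n : ι) : Prop :=
  m ≠ n ∧ ¬ P n ∧ l n ≤ l m ∧ r m ≤ r n ∧ ¬ r m ≤ l n ∧ ¬ r n ≤ l m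

/-- points and non-crossing arcs -/
structure Arr : Prop where
  pt : ∀ m, P m → l m = r m
  arc : ∀ m, ¬ P m → l m < r m
  nc : ∀ m n, ¬ P m → ¬ P n → l m < l n → l n < r m → ¬ r m < r n
  injP : ∀ m n, P m → P n → l m = l n → m = n
  injA : ∀ m n, ¬ P m → ¬ P n → l m = l n → r m = r n → m = n

variable {P l r}

theorem Arr.le (h : Arr P l r) (m : ι) : l m ≤ r m := by
  by_cases hm : P m
  · exact (h.pt m hm).le
  · exact (h.arc m hm).le

theorem Arr.lf_asymm (h : Arr P l r) {m n : ι} (h1 : Lf l r m n) : ¬ Lf l r n m := by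
  rintro ⟨h2, h3⟩
  obtain ⟨h4, h5⟩ := h1
  have a1 := h.le m
  have a2 := h.le n
  have e1 : l m = r m := by order
  have e2 : l n = r n := by order
  have e3 : l m = l n := by order
  by_cases hm : P m
  · by_cases hn : P n
    · exact h4 (h.injP m n hm hn e3)
    · have := h.arc n hn
      order
  · have := h.arc m hm
    order

theorem Arr.in_not_lf {m n : ι} (h1 : In P l r m n) : ¬ Lf l r m n ∧ ¬ Lf l r n m :=
  ⟨fun h2 => h1.2.2.2.2.1 h2.2, fun h2 => h1.2.2.2.2.2 h2.2⟩

theorem Arr.in_asymm (h : Arr P l r) {m n : ι} (h1 : In P l r m n) : ¬ In P l r n m := by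
  rintro ⟨h2, h3, h4, h5, h6, h7⟩
  obtain ⟨k2, k3, k4, k5, k6, k7⟩ := h1
  exact k2 (h.injA m n h3 k3 (by order) (by order))

theorem Arr.tri (h : Arr P l r) {m n : ι} (hne : m ≠ n) :
    Lf l r m n ∨ Lf l r n m ∨ In P l r m n ∨ In P l r n m := by
  by_cases h1 : r m ≤ l n
  · exact Or.inl ⟨hne, h1⟩
  by_cases h2 : r n ≤ l m
  · exact Or.inr (Or.inl ⟨hne.symm, h2⟩)
  right; right
  have a1 := h.le m
  have a2 := h.le n
  by_cases hm : P m
  · have e1 := h.pt m hm
    by_cases hn : P n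
    · have e2 := h.pt n hn
      exfalso
      rcases le_total (l m) (l n) with h3 | h3
      · exact h1 (by order)
      · exact h2 (by order)
    · exact Or.inl ⟨hne, hn, by order, by order, h1, h2⟩
  · by_cases hn : P n
    · have e2 := h.pt n hn
      exact Or.inr ⟨hne.symm, hm, by order, by order, h2, h1⟩
    · have b1 := h.arc m hm
      have b2 := h.arc n hn
      have c1 := h.nc m n hm hn
      have c2 := h.nc n m hn hm
      rcases lt_trichotomy (l m) (l n) with h3 | h3 | h3
      · have := c1 h3 (by order)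
        exact Or.inr ⟨hne.symm, hm, by order, by order, h2, h1⟩
      · rcases le_total (r m) (r n) with h4 | h4
        · exact Or.inl ⟨hne, hn, by order, by order, h1, h2⟩
        · exact Or.inr ⟨hne.symm, hm, by order, by order, h2, h1⟩
      · have := c2 h3 (by order)
        exact Or.inl ⟨hne, hn, by order, by order, h1, h2⟩

theorem Arr.lf_trans (h : Arr P l r) {a b c : ι} (h1 : Lf l r a b) (h2 : Lf l r b c) :
    Lf l r a c := by
  have h3 : r a ≤ l c := by
    have := h.le b
    obtain ⟨-, k1⟩ := h1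
    obtain ⟨-, k2⟩ := h2
    order
  refine ⟨?_, h3⟩
  rintro rfl
  exact h.lf_asymm h1 h2

theorem Arr.lf_in (_h : Arr P l r) {a b c : ι} (h1 : Lf l r a b) (h2 : In P l r c b) :
    Lf l r a c := by
  have h3 : r a ≤ l c := by
    obtain ⟨-, k1⟩ := h1
    obtain ⟨-, -, k2, -⟩ := h2
    order
  refine ⟨?_, h3⟩
  rintro rfl
  exact (Arr.in_not_lf h2).1 h1

theorem Arr.in_lf (_h : Arr P l r) {a b c : ι} (h1 : Lf l r a b) (h2 : In P l r c a) :
    Lf l r c b := by
  have h3 : r c ≤ l b := by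
    obtain ⟨-, k1⟩ := h1
    obtain ⟨-, -, -, k2, -⟩ := h2
    order
  refine ⟨?_, h3⟩
  rintro rfl
  exact (Arr.in_not_lf h2).2 h1

theorem Arr.in_trans (h : Arr P l r) {a b c : ι} (h1 : In P l r a b) (h2 : In P l r b c) :
    In P l r a c := by
  have hac : a ≠ c := by
    rintro rfl
    exact h.in_asymm h1 h2
  obtain ⟨h2', h3, h4, h5, h6, h7⟩ := h1
  obtain ⟨k2, k3, k4, k5, k6, k7⟩ := h2
  exact ⟨hac, k3, by order, by order, fun h8 => h6 (by order), fun h8 => h7 (by order)⟩

/-- the preorder of the plane forest -/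
def Pre (P : ι → Prop) (l r : ι → α) (m n : ι) : Prop := Lf l r m n ∨ In P l r n m

theorem Arr.pre_tot (h : Arr P l r) {m n : ι} (hne : m ≠ n) : Pre P l r m n ∨ Pre P l r n m := by
  rcases h.tri hne with h1 | h1 | h1 | h1
  · exact Or.inl (Or.inl h1)
  · exact Or.inr (Or.inl h1)
  · exact Or.inr (Or.inr h1)
  · exact Or.inl (Or.inr h1)

theorem Arr.pre_ne {m n : ι} (h1 : Pre P l r m n) : m ≠ n := by
  rcases h1 with h1 | h1
  · exact h1.1
  · exact h1.1.symm

theorem Arr.pre_asymm (h : Arr P l r) {m n : ι} (h1 : Pre P l r m n) : ¬ Pre P l r n m := by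
  rintro (h2 | h2) <;> rcases h1 with h1 | h1
  · exact h.lf_asymm h1 h2
  · exact (Arr.in_not_lf h1).1 h2
  · exact (Arr.in_not_lf h2).1 h1
  · exact h.in_asymm h1 h2

theorem Arr.pre_trans (h : Arr P l r) {a b c : ι} (h1 : Pre P l r a b) (h2 : Pre P l r b c) :
    Pre P l r a c := by
  have hac : a ≠ c := by
    rintro rfl
    exact h.pre_asymm h1 h2
  rcases h1 with h1 | h1 <;> rcases h2 with h2 | h2
  · exact Or.inl (h.lf_trans h1 h2)
  · exact Or.inl (h.lf_in h1 h2)
  · rcases h.tri hac with h3 | h3 | h3 | h3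
    · exact Or.inl h3
    · exact absurd (h.lf_in h3 h1) (h.lf_asymm h2)
    · exact absurd h2 (Arr.in_not_lf (h.in_trans h1 h3)).1
    · exact Or.inr h3
  · exact Or.inr (h.in_trans h2 h1)

theorem Arr.exists_min (h : Arr P l r) (F : Finset ι) (hF : F.Nonempty) :
    ∃ t ∈ F, ∀ w ∈ F, w ≠ t → Pre P l r t w := by
  classical
  induction hF using Finset.Nonempty.cons_induction with
  | singleton a =>
    exact ⟨a, Finset.mem_singleton_self a, fun w hw hne => absurd (Finset.mem_singleton.1 hw) hne⟩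
  | cons a s ha hs ih =>
    obtain ⟨t, ht, h1⟩ := ih
    have hta : t ≠ a := fun e => ha (e ▸ ht)
    rcases h.pre_tot hta with h2 | h2
    · refine ⟨t, Finset.mem_cons_of_mem ht, fun w hw hne => ?_⟩
      rcases Finset.mem_cons.1 hw with rfl | hw
      · exact h2
      · exact h1 w hw hne
    · refine ⟨a, Finset.mem_cons_self a s, fun w hw hne => ?_⟩
      rcases Finset.mem_cons.1 hw with rfl | hw
      · exact absurd rfl hne
      · by_cases hwt : w = t
        · rw [hwt]; exact h2
        · exact h.pre_trans h2 (h1 w hw hwt)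

/-- every finite set has a nontrivial module -/
theorem Arr.module (h : Arr P l r) (F : Finset ι) (hF : 3 ≤ F.card) :
    ∃ X ⊆ F, 1 < X.card ∧ X.card < F.card ∧ ∀ u ∈ X, ∀ v ∈ X, ∀ w ∈ F, w ∉ X →
      (Lf l r u w ↔ Lf l r v w) ∧ (Lf l r w u ↔ Lf l r w v) ∧
      (In P l r u w ↔ In P l r v w) ∧ (In P l r w u ↔ In P l r w v) := by
  classical
  obtain ⟨t, ht, hmin⟩ := h.exists_min F (Finset.card_pos.1 (by omega))
  -- all relations to `w` are the same if all of `X` is on the left of `w`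
  have key : ∀ X : Finset ι, ∀ w, (∀ u ∈ X, Lf l r u w) → ∀ u ∈ X, ∀ v ∈ X,
      (Lf l r u w ↔ Lf l r v w) ∧ (Lf l r w u ↔ Lf l r w v) ∧
      (In P l r u w ↔ In P l r v w) ∧ (In P l r w u ↔ In P l r w v) := by
    intro X w hX u hu v hv
    have b1 := hX u hu
    have b2 := hX v hv
    refine ⟨iff_of_true b1 b2, iff_of_false (h.lf_asymm b1) (h.lf_asymm b2),
      iff_of_false (fun b3 => (Arr.in_not_lf b3).1 b1) (fun b3 => (Arr.in_not_lf b3).1 b2),
      iff_of_false (fun b3 => (Arr.in_not_lf b3).2 b1) (fun b3 => (Arr.in_not_lf b3).2 b2)⟩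
  have key' : ∀ X : Finset ι, ∀ w, (∀ u ∈ X, Lf l r w u) → ∀ u ∈ X, ∀ v ∈ X,
      (Lf l r u w ↔ Lf l r v w) ∧ (Lf l r w u ↔ Lf l r w v) ∧
      (In P l r u w ↔ In P l r v w) ∧ (In P l r w u ↔ In P l r w v) := by
    intro X w hX u hu v hv
    have b1 := hX u hu
    have b2 := hX v hv
    refine ⟨iff_of_false (h.lf_asymm b1) (h.lf_asymm b2), iff_of_true b1 b2,
      iff_of_false (fun b3 => (Arr.in_not_lf b3).2 b1) (fun b3 => (Arr.in_not_lf b3).2 b2),
      iff_of_false (fun b3 => (Arr.in_not_lf b3).1 b1) (fun b3 => (Arr.in_not_lf b3).1 b2)⟩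
  have key'' : ∀ X : Finset ι, ∀ w, (∀ u ∈ X, In P l r u w) → ∀ u ∈ X, ∀ v ∈ X,
      (Lf l r u w ↔ Lf l r v w) ∧ (Lf l r w u ↔ Lf l r w v) ∧
      (In P l r u w ↔ In P l r v w) ∧ (In P l r w u ↔ In P l r w v) := by
    intro X w hX u hu v hv
    have b1 := hX u hu
    have b2 := hX v hv
    refine ⟨iff_of_false (Arr.in_not_lf b1).1 (Arr.in_not_lf b2).1,
      iff_of_false (Arr.in_not_lf b1).2 (Arr.in_not_lf b2).2, iff_of_true b1 b2,
      iff_of_false (h.in_asymm b1) (h.in_asymm b2)⟩
  let X := F.filter fun w => w = t ∨ In P l r w t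
  have htX : t ∈ X := Finset.mem_filter.2 ⟨ht, Or.inl rfl⟩
  have hout : ∀ w ∈ F, w ∉ X → Lf l r t w := by
    intro w hw hwX
    have h1 : ¬ (w = t ∨ In P l r w t) := fun h2 => hwX (Finset.mem_filter.2 ⟨hw, h2⟩)
    rcases hmin w hw (fun e => h1 (Or.inl e)) with h2 | h2
    · exact h2
    · exact absurd (Or.inr h2) h1
  have her : (F.erase t).card = F.card - 1 := Finset.card_erase_of_mem ht
  by_cases hXF : X = F
  · refine ⟨F.erase t, Finset.erase_subset _ _, by omega, by omega, ?_⟩
    intro u hu v hv w hw hwX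
    have hwt : w = t := by
      by_contra hne
      exact hwX (Finset.mem_erase.2 ⟨hne, hw⟩)
    subst hwt
    refine key'' (F.erase w) w (fun u hu => ?_) u hu v hv
    obtain ⟨h1, h2⟩ := Finset.mem_erase.1 hu
    rw [← hXF] at h2
    rcases (Finset.mem_filter.1 h2).2 with h3 | h3
    · exact absurd h3 h1
    · exact h3
  · have hsub : X ⊆ F := Finset.filter_subset _ _
    have hlt : X.card < F.card := Finset.card_lt_card (hsub.ssubset_of_ne hXF)
    by_cases h1 : 1 < X.card
    · refine ⟨X, hsub, h1, hlt, fun u hu v hv w hw hwX => ?_⟩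
      refine key X w (fun u hu => ?_) u hu v hv
      have h2 := hout w hw hwX
      rcases (Finset.mem_filter.1 hu).2 with h3 | h3
      · rw [h3]; exact h2
      · exact h.in_lf h2 h3
    · have h2 : X = {t} := by
        have h3 : X.card = 1 := by
          have := Finset.card_pos.2 ⟨t, htX⟩
          omega
        obtain ⟨b, hb⟩ := Finset.card_eq_one.1 h3
        rw [hb] at htX ⊢
        rw [Finset.mem_singleton.1 htX]
      refine ⟨F.erase t, Finset.erase_subset _ _, by omega, by omega, ?_⟩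
      intro u hu v hv w hw hwX
      have hwt : w = t := by
        by_contra hne
        exact hwX (Finset.mem_erase.2 ⟨hne, hw⟩)
      subst hwt
      refine key' (F.erase w) w (fun u hu => ?_) u hu v hv
      obtain ⟨h3, h4⟩ := Finset.mem_erase.1 hu
      refine hout u h4 ?_
      rw [h2, Finset.mem_singleton]
      exact h3

end abs

end Pool.Agent.U97.NC
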