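import Pool.Agent.U97.NC.Lab

set_option autoImplicit false

/-!
The coding is Borel and equivariant.
-/

namespace Pool.Agent.U97.NC

open Set MeasureTheory Relation
open Pool.Agent.H533R2.VO (RS RIso VC Dich)
open Pool.Agent.H533R2.VS
open Pool.Agent.N481.VT (SLO)
open Pool.Agent.W889.VC (BP cont_of_meas)

/-! ### equivariance -/

section equi

/-- `σ` is an isomorphism of the structures and the orders -/
structure Is {a : ℕ → ℕ} (σ : Equiv.Perm ℕ) (lt lt' : ℕ → ℕ → Prop) (x y : RS a) : Prop where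
  hl : ∀ u v, lt' (σ u) (σ v) ↔ lt u v
  hx : ∀ (i : ℕ) (v : Fin (a i) → ℕ), y i (⇑σ ∘ v) = x i v

variable {a : ℕ → ℕ} {σ : Equiv.Perm ℕ} {lt lt' : ℕ → ℕ → Prop} {x y : RS a}

theorem comp_symm {n : ℕ} (σ : Equiv.Perm ℕ) (v : Fin n → ℕ) : (⇑σ ∘ ⇑σ.symm ∘ v) = v := by
  funext j
  exact σ.apply_symm_apply (v j)

theorem Is.symm (h : Is σ lt lt' x y) : Is σ.symm lt' lt y x where
  hl u v := by
    rw [← h.hl, σ.apply_symm_apply, σ.apply_symm_apply]
  hx i v := by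
    rw [← h.hx, comp_symm]

theorem Is.lt1 (h : Is σ lt lt' x y) (u v : ℕ) : lt' u v ↔ lt (σ.symm u) (σ.symm v) :=
  (h.symm.hl u v).symm

theorem Is.x1 (h : Is σ lt lt' x y) (i : ℕ) (v : Fin (a i) → ℕ) :
    y i v = x i (⇑σ.symm ∘ v) := (h.symm.hx i v).symm

theorem Is.od (h : Is σ lt lt' x y) {i : ℕ} (h1 : OD' lt x i) : OD' lt' y i := by
  intro v w hvw
  rw [h.x1, h.x1]
  refine h1 _ _ fun s t => ?_
  have := hvw s t
  rw [h.lt1, h.lt1] at this
  exact this

theorem Is.od_iff (h : Is σ lt lt' x y) (i : ℕ) : OD' lt x i ↔ OD' lt' y i :=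
  ⟨h.od, h.symm.od⟩

/-- the image of a finite set -/
def mp (σ : Equiv.Perm ℕ) (S : Finset ℕ) : Finset ℕ := S.map σ.toEmbedding

theorem mem_mp {σ : Equiv.Perm ℕ} {S : Finset ℕ} {u : ℕ} : u ∈ mp σ S ↔ σ.symm u ∈ S :=
  Finset.mem_map_equiv

theorem mp_mp (σ : Equiv.Perm ℕ) (S : Finset ℕ) : mp σ.symm (mp σ S) = S := by
  ext u
  rw [mem_mp, mem_mp, Equiv.symm_symm, σ.symm_apply_apply]

theorem Is.su (h : Is σ lt lt' x y) {S : Finset ℕ} (h1 : Su lt x S) : Su lt' y (mp σ S) := by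
  obtain ⟨i, v, h2, h3, h4⟩ := h1
  refine ⟨i, ⇑σ ∘ v, fun h5 => h2 ((h.od_iff i).2 h5), by rw [h.hx]; exact h3, fun u => ?_⟩
  rw [mem_mp, h4]
  refine exists_congr fun j => ?_
  show v j = σ.symm u ↔ σ (v j) = u
  rw [Equiv.eq_symm_apply]

theorem Is.cr (h : Is σ lt lt' x y) {S T : Finset ℕ} (h1 : Cr' lt S T) :
    Cr' lt' (mp σ S) (mp σ T) := by
  obtain ⟨p, q, r, s, h2, h3, h4, h5⟩ := h1
  refine ⟨σ p, σ q, σ r, σ s, (h.hl _ _).2 h2, (h.hl _ _).2 h3, (h.hl _ _).2 h4, ?_⟩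
  simp only [mem_mp, σ.symm_apply_apply]
  exact h5

theorem Is.li (h : Is σ lt lt' x y) {S T : Finset ℕ} (h1 : Li lt x S T) :
    Li lt' y (mp σ S) (mp σ T) := by
  unfold Li at h1 ⊢
  induction h1 with
  | refl => exact ReflTransGen.refl
  | tail _ h2 ih => exact ih.tail ⟨h.su h2.1, h.su h2.2.1, h.cr h2.2.2⟩

theorem Is.wi (h : Is σ lt lt' x y) {S : Finset ℕ} {p : ℕ} (h1 : Wi lt x S p) :
    Wi lt' y (mp σ S) (σ p) := by
  obtain ⟨T, h2, h3, h4⟩ := h1
  refine ⟨mp σ T, h.su h2, h.li h3, ?_⟩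
  rw [mem_mp, σ.symm_apply_apply]
  exact h4

theorem Is.wi_iff (h : Is σ lt lt' x y) (S : Finset ℕ) (p : ℕ) :
    Wi lt' y (mp σ S) p ↔ Wi lt x S (σ.symm p) := by
  constructor
  · intro h1
    have h2 := h.symm.wi h1
    rw [mp_mp] at h2
    exact h2
  · intro h1
    have h2 := h.wi h1
    rw [σ.apply_symm_apply] at h2
    exact h2

theorem Is.po (h : Is σ lt lt' x y) {n : ℕ} {w : Fin (n + 1) → ℕ} (h1 : Po lt x n w) :
    Po lt' y n (⇑σ ∘ w) := by
  obtain ⟨h2, S, h3, h4⟩ := h1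
  refine ⟨fun s t hst => (h.hl _ _).2 (h2 s t hst), mp σ S, h.su h3, fun u => ?_⟩
  rw [h.wi_iff, ← h4]
  refine exists_congr fun j => ?_
  show σ (w j) = u ↔ w j = σ.symm u
  rw [Equiv.eq_symm_apply]

theorem Is.lr (h : Is σ lt lt' x y) {l : Lb a} {u u' : ℕ} (h1 : LR lt x l u u') :
    LR lt' y l (σ u) (σ u') := by
  rcases l with ⟨i, o⟩ | ⟨n, k⟩ | ⟨i, n, t⟩
  · obtain ⟨h2, h3, v, h4, h5⟩ := h1
    refine ⟨by rw [h2], h.od h3, ⇑σ ∘ v, fun s t => ?_, by rw [h.hx]; exact h5⟩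
    rw [← h4]
    exact h.hl _ _
  · obtain ⟨w, h2, j, h3, h4, h5⟩ := h1
    exact ⟨⇑σ ∘ w, h.po h2, j, h3, congrArg σ h4, congrArg σ h5⟩
  · obtain ⟨w, h2, h3, h4, h5⟩ := h1
    refine ⟨⇑σ ∘ w, h.po h2, congrArg σ h3, congrArg σ h4, ?_⟩
    have := h.hx i fun s => w (t s)
    rw [h5] at this
    exact this

theorem Is.lr_iff (h : Is σ lt lt' x y) (l : Lb a) (u u' : ℕ) :
    LR lt' y l u u' ↔ LR lt x l (σ.symm u) (σ.symm u') := by
  constructor
  · exact fun h1 => h.symm.lr h1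
  · intro h1
    have h2 := h.lr h1
    rw [σ.apply_symm_apply, σ.apply_symm_apply] at h2
    exact h2

theorem Is.fc (h : Is σ lt lt' x y) (h1 : FC lt x) : FC lt' y where
  lin :=
    { irr := fun m => by
        rw [h.lt1]; exact h1.lin.irr _
      tr := fun m n k h2 h3 => by
        rw [h.lt1] at h2 h3 ⊢
        exact h1.lin.tr _ _ _ h2 h3
      tot := fun m n => by
        rw [h.lt1, h.lt1]
        rcases h1.lin.tot (σ.symm m) (σ.symm n) with h2 | h2
        · exact Or.inl (σ.symm.injective h2)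
        · exact Or.inr h2 }
  fin S hS := by
    have h2 := h1.fin (mp σ.symm S) (h.symm.su hS)
    refine (h2.image (mp σ)).subset ?_
    intro T hT
    refine ⟨mp σ.symm T, h.symm.li hT, ?_⟩
    have := mp_mp σ.symm T
    rw [Equiv.symm_symm] at this
    exact this

theorem dd_equi {L L' : Lb a → ℕ → ℕ → Prop} (hl : ∀ u v, lt' (σ u) (σ v) ↔ lt u v)
    (hL : ∀ l u v, L' l (σ u) (σ v) ↔ L l u v) {i : ℕ} {v : Fin (a i) → ℕ}
    (h : Dd lt L i v) : Dd lt' L' i (⇑σ ∘ v) := by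
  rcases h with ⟨u, o, h1, h2⟩ | ⟨n, w, t, h1, h2, h3, h4⟩
  · left
    refine ⟨σ u, o, fun s t => ?_, (hL _ _ _).2 h2⟩
    rw [← h1]
    exact hl _ _
  · right
    refine ⟨n, ⇑σ ∘ w, t, fun s s' hs => (hl _ _).2 (h1 s s' hs), fun s => ?_,
      (hL _ _ _).2 h3, fun k => (hL _ _ _).2 (h4 k)⟩
    show σ (v s) = σ (w (t s))
    rw [h2]

end equi

/-! ### measurability -/

/-- paths of a given length -/
def It {A : Type} (r : A → A → Prop) : ℕ → A → A → Prop
  | 0, s, t => s = t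
  | n + 1, s, t => ∃ u, It r n s u ∧ r u t

theorem rtg_iff {A : Type} (r : A → A → Prop) (s t : A) :
    ReflTransGen r s t ↔ ∃ n, It r n s t := by
  constructor
  · intro h
    induction h with
    | refl => exact ⟨0, rfl⟩
    | tail _ h2 ih =>
      obtain ⟨n, hn⟩ := ih
      exact ⟨n + 1, _, hn, h2⟩
  · rintro ⟨n, hn⟩
    induction n generalizing t with
    | zero =>
      have : s = t := hn
      rw [this]
    | succ n ih =>
      obtain ⟨u, h1, h2⟩ := hn
      exact ReflTransGen.tail (ih u h1) h2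

section meas

variable {a : ℕ → ℕ} {Y : Type} [MeasurableSpace Y] {lt : Y → ℕ → ℕ → Prop} {X : Y → RS a}

/-- the order and the structure depend measurably on the point -/
structure MX (lt : Y → ℕ → ℕ → Prop) (X : Y → RS a) : Prop where
  l : ∀ u v, BP fun y => lt y u v
  x : ∀ i v, BP fun y => X y i v = true

theorem MX.od (h : MX lt X) (i : ℕ) : BP fun y => OD' (lt y) (X y) i :=
  BP.all fun v => BP.all fun w => (BP.all fun s => BP.all fun t => (h.l _ _).iff (h.l _ _)).imp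
    ((h.x _ _).iff (h.x _ _))

theorem MX.su (h : MX lt X) (S : Finset ℕ) : BP fun y => Su (lt y) (X y) S :=
  BP.ex fun i => BP.ex fun v => (h.od i).not.and ((h.x _ _).and (BP.const _))

theorem MX.cr (h : MX lt X) (S T : Finset ℕ) : BP fun y => Cr' (lt y) S T :=
  BP.ex fun p => BP.ex fun q => BP.ex fun r => BP.ex fun s => (h.l p q).and ((h.l q r).and
    ((h.l r s).and (BP.const _)))

theorem MX.ad (h : MX lt X) (S T : Finset ℕ) : BP fun y => Ad (lt y) (X y) S T :=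
  (h.su S).and ((h.su T).and (h.cr S T))

theorem MX.it (h : MX lt X) (n : ℕ) (S T : Finset ℕ) :
    BP fun y => It (Ad (lt y) (X y)) n S T := by
  induction n generalizing T with
  | zero => exact BP.const _
  | succ n ih => exact BP.ex fun U => (ih U).and (h.ad U T)

theorem MX.li (h : MX lt X) (S T : Finset ℕ) : BP fun y => Li (lt y) (X y) S T := by
  have h1 : BP fun y => ∃ n, It (Ad (lt y) (X y)) n S T := BP.ex fun n => h.it n S T
  exact h1.congr fun y => (rtg_iff _ _ _).symm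

theorem MX.wi (h : MX lt X) (S : Finset ℕ) (p : ℕ) : BP fun y => Wi (lt y) (X y) S p :=
  BP.ex fun T => (h.su T).and ((h.li S T).and (BP.const _))

theorem MX.po (h : MX lt X) (n : ℕ) (w : Fin (n + 1) → ℕ) : BP fun y => Po (lt y) (X y) n w :=
  (BP.all fun s => BP.all fun t => BP.imp (BP.const (s < t)) (h.l _ _)).and
    (BP.ex fun S => (h.su S).and (BP.all fun u => BP.iff (BP.const (∃ j, w j = u)) (h.wi S u)))

theorem MX.lr (h : MX lt X) (l : Lb a) (u u' : ℕ) : BP fun y => LR (lt y) (X y) l u u' := by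
  rcases l with ⟨i, o⟩ | ⟨n, k⟩ | ⟨i, n, t⟩
  · exact (BP.const _).and ((h.od i).and (BP.ex fun v =>
      (BP.all fun s => BP.all fun t => (h.l _ _).iff (BP.const _)).and (h.x _ _)))
  · exact BP.ex fun w => (h.po n w).and (BP.const _)
  · exact BP.ex fun w => (h.po n w).and ((BP.const _).and ((BP.const _).and (h.x _ _)))

theorem bp_dd {L : Y → Lb a → ℕ → ℕ → Prop} (h : ∀ u v, BP fun y => lt y u v)
    (hL : ∀ l u v, BP fun y => L y l u v) (i : ℕ) (v : Fin (a i) → ℕ) :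
    BP fun y => Dd (lt y) (L y) i v := by
  unfold Dd
  refine BP.or ?_ ?_
  · exact BP.ex fun u => BP.ex fun o => (BP.all fun s => BP.all fun t =>
      (h _ _).iff (BP.const _)).and (hL _ _ _)
  · refine BP.ex fun n => BP.ex fun w => BP.ex fun t => ?_
    refine (BP.all fun s => BP.all fun s' => BP.imp (BP.const (s < s')) (h _ _)).and ?_
    exact (BP.const _).and ((hL _ _ _).and (BP.all fun k => hL _ _ _))

end meas

end Pool.Agent.U97.NC
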