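import Pool.Agent.U97.NC.Abs
import Pool.Agent.TH425.FF.Cun
import Pool.Agent.W889.VC.Transfer
import Pool.Agent.N481.VT.Chg

set_option autoImplicit false

/-!
Codes of ordered structures with non-crossing binary relations: the arcs become new points.
-/

namespace Pool.Agent.U97.NC

open Set MeasureTheory
open Pool.Agent.H533R2.VO (RS RIso VC Dich)
open Pool.Agent.H533R2.VS
open Pool.Agent.N481.VT (SLO)

/-- all relations are binary -/
abbrev b2 : ℕ → ℕ := fun _ => 2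

/-- the relation number `i` -/
def rl (x : RS b2) (i m n : ℕ) : Prop := x i (p2 m n) = true

/-- the pair `(m, n)`, in this order, is an arc -/
def Arc (x : RS b2) (m n : ℕ) : Prop := rl x 0 m n ∧ ∃ i, rl x (i + 1) m n ∨ rl x (i + 1) n m

/-- the relation number `0` is a linear order, the other relations do not cross -/
structure NCB (x : RS b2) : Prop where
  lin : SLO (rl x 0)
  nc : ∀ m n m' n', Arc x m n → Arc x m' n' → rl x 0 m m' → rl x 0 m' n → ¬ rl x 0 n n'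

/-! ### endpoints -/

section ends

variable (P : ℕ → Prop) (L : ℕ → ℕ → Prop)

/-- `(a, b)` are the endpoints of `n` -/
def Ep (n a b : ℕ) : Prop := P a ∧ P b ∧ ((P n ∧ a = n ∧ b = n) ∨ (¬ P n ∧ L a b ∧
  (∀ z, P z → (L z n ↔ (z = a ∨ L z a))) ∧ ∀ z, P z → (L n z ↔ (z = b ∨ L b z))))

/-- the order of the points -/
structure PO : Prop where
  irr : ∀ m, P m → ¬ L m m
  tr : ∀ m n k, P m → P n → P k → L m n → L n k → L m k
  tot : ∀ m n, P m → P n → m = n ∨ L m n ∨ L n m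

variable {P L}

theorem Ep.uniq (h : PO P L) {n a b a' b' : ℕ} (h1 : Ep P L n a b) (h2 : Ep P L n a' b') :
    a = a' ∧ b = b' := by
  obtain ⟨pa, pb, h1⟩ := h1
  obtain ⟨pa', pb', h2⟩ := h2
  rcases h1 with ⟨k1, rfl, rfl⟩ | ⟨k1, k2, k3, k4⟩
  · rcases h2 with ⟨j1, j2, j3⟩ | ⟨j1, j2, j3, j4⟩
    · exact ⟨j2.symm, j3.symm⟩
    · exact absurd k1 j1
  · rcases h2 with ⟨j1, j2, j3⟩ | ⟨j1, j2, j3, j4⟩
    · exact absurd j1 k1
    · constructor
      · have e1 := (j3 a pa).1 ((k3 a pa).2 (Or.inl rfl))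
        have e2 := (k3 a' pa').1 ((j3 a' pa').2 (Or.inl rfl))
        rcases e1 with e1 | e1
        · exact e1
        · rcases e2 with e2 | e2
          · exact e2.symm
          · exact absurd (h.tr _ _ _ pa pa' pa e1 e2) (h.irr a pa)
      · have e1 := (j4 b pb).1 ((k4 b pb).2 (Or.inl rfl))
        have e2 := (k4 b' pb').1 ((j4 b' pb').2 (Or.inl rfl))
        rcases e1 with e1 | e1
        · exact e1
        · rcases e2 with e2 | e2
          · exact e2.symm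
          · exact absurd (h.tr _ _ _ pb pb' pb e2 e1) (h.irr b pb)

theorem Ep.map {P' : ℕ → Prop} {L' : ℕ → ℕ → Prop} (σ : Equiv.Perm ℕ)
    (hP : ∀ n, P' (σ n) ↔ P n) (hL : ∀ m n, L' (σ m) (σ n) ↔ L m n) (n a b : ℕ) :
    Ep P' L' (σ n) (σ a) (σ b) ↔ Ep P L n a b := by
  unfold Ep
  rw [hP, hP, hP, hL, σ.injective.eq_iff, σ.injective.eq_iff]
  have e1 : (∀ z, P' z → (L' z (σ n) ↔ z = σ a ∨ L' z (σ a))) ↔
      ∀ z, P z → (L z n ↔ z = a ∨ L z a) := by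
    rw [← σ.forall_congr_right]
    refine forall_congr' fun z => ?_
    rw [hP, hL, hL, σ.injective.eq_iff]
  have e2 : (∀ z, P' z → (L' (σ n) z ↔ z = σ b ∨ L' (σ b) z)) ↔
      ∀ z, P z → (L n z ↔ z = b ∨ L b z) := by
    rw [← σ.forall_congr_right]
    refine forall_congr' fun z => ?_
    rw [hP, hL, hL, σ.injective.eq_iff]
  rw [e1, e2]

theorem Ep.symm_map {P' : ℕ → Prop} {L' : ℕ → ℕ → Prop} (σ : Equiv.Perm ℕ)
    (hP : ∀ n, P' (σ n) ↔ P n) (hL : ∀ m n, L' (σ m) (σ n) ↔ L m n) (n a b : ℕ) :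
    Ep P' L' n a b ↔ Ep P L (σ.symm n) (σ.symm a) (σ.symm b) := by
  have h := Ep.map σ hP hL (σ.symm n) (σ.symm a) (σ.symm b)
  simp only [Equiv.apply_symm_apply] at h
  exact h

end ends

/-! ### codes -/

/-- the points of the code -/
def yP (y : US b2) (n : ℕ) : Prop := y.2 0 n = true
/-- to the left -/
def yL (y : US b2) (m n : ℕ) : Prop := rl y.1 1 m n
/-- inside -/
def yI (y : US b2) (m n : ℕ) : Prop := rl y.1 0 m n
/-- the endpoints -/
def yE (y : US b2) (n a b : ℕ) : Prop := Ep (yP y) (yL y) n a b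
/-- labels -/
def yU (y : US b2) (i n : ℕ) : Prop := y.2 i n = true
/-- the order of the points, weakly -/
def yl (y : US b2) (a b : ℕ) : Prop := a = b ∨ yL y a b

/-- the codes -/
structure Good (y : US b2) : Prop where
  inf : ∀ m, ∃ n, m ≤ n ∧ yP y n
  po : PO (yP y) (yL y)
  ep : ∀ n, ∃ a b, yE y n a b
  lf : ∀ m n a b c d, yE y m a b → yE y n c d → (yL y m n ↔ m ≠ n ∧ yl y b c)
  inn : ∀ m n a b c d, yE y m a b → yE y n c d → (yI y m n ↔
    m ≠ n ∧ ¬ yP y n ∧ yl y c a ∧ yl y b d ∧ ¬ yl y b c ∧ ¬ yl y d a)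
  inj : ∀ m n a b, ¬ yP y m → ¬ yP y n → yE y m a b → yE y n a b → m = n
  lab : ∀ n, ¬ yP y n → ∃ i, yU y (3 * i + 2) n ∨ yU y (3 * i + 3) n
  lab1 : ∀ n i, ¬ yP y n → ¬ yU y (3 * i + 1) n
  lab3 : ∀ n i, yP y n → ¬ yU y (3 * i + 3) n
  rest : ∀ i v, y.1 (i + 2) v = false

/-- the relation number `i + 1`, read off from the code -/
def yR (y : US b2) (i a b : ℕ) : Prop := (a = b ∧ yU y (3 * i + 2) a) ∨
  ∃ e, ¬ yP y e ∧ ((yE y e a b ∧ yU y (3 * i + 2) e) ∨ (yE y e b a ∧ yU y (3 * i + 3) e))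

/-- `y` codes `x`; the points of `x` are numbered by `κ` -/
structure Coded (x y : US b2) (κ : ℕ → ℕ) : Prop where
  inj : Function.Injective κ
  rng : ∀ n, yP y n ↔ ∃ k, κ k = n
  lt : ∀ k l, rl x.1 0 k l ↔ yL y (κ k) (κ l)
  un : ∀ i k, x.2 i k = true ↔ yU y (3 * i + 1) (κ k)
  rel : ∀ i k l, rl x.1 (i + 1) k l ↔ yR y i (κ k) (κ l)

/-- `σ` is an isomorphism -/
def IsoBy (σ : Equiv.Perm ℕ) (x y : US b2) : Prop :=
  (∀ (i : ℕ) (v : Fin (b2 i) → ℕ), y.1 i (⇑σ ∘ v) = x.1 i v) ∧ ∀ i u, y.2 i (σ u) = x.2 i u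

theorem uiso_iff {x y : US b2} : UIso x y ↔ ∃ σ, IsoBy σ x y := Iff.rfl

theorem IsoBy.rl {σ : Equiv.Perm ℕ} {x y : US b2} (h : IsoBy σ x y) (i m n : ℕ) :
    rl y.1 i (σ m) (σ n) ↔ rl x.1 i m n := by
  unfold NC.rl
  rw [nis_p2, h.1]

theorem IsoBy.un {σ : Equiv.Perm ℕ} {x y : US b2} (h : IsoBy σ x y) (i m : ℕ) :
    yU y i (σ m) ↔ yU x i m := by
  unfold yU
  rw [h.2]

theorem IsoBy.symm {σ : Equiv.Perm ℕ} {x y : US b2} (h : IsoBy σ x y) : IsoBy σ.symm y x := by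
  refine ⟨fun i v => ?_, fun i u => ?_⟩
  · rw [← h.1]
    have e : (⇑σ ∘ ⇑σ.symm ∘ v) = v := by
      funext j
      exact σ.apply_symm_apply (v j)
    rw [e]
  · rw [← h.2, σ.apply_symm_apply]

theorem p2_eta (v : Fin 2 → ℕ) : (p2 (v 0) (v 1) : Fin 2 → ℕ) = v := by
  funext j
  fin_cases j <;> rfl

/-- an isomorphism from the relations on pairs -/
theorem isoBy_of {σ : Equiv.Perm ℕ} {x y : US b2}
    (h1 : ∀ i m n, NC.rl y.1 i (σ m) (σ n) ↔ NC.rl x.1 i m n)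
    (h2 : ∀ i u, yU y i (σ u) ↔ yU x i u) : IsoBy σ x y := by
  refine ⟨fun i v => ?_, fun i u => ?_⟩
  · have h3 := h1 i (v 0) (v 1)
    unfold NC.rl at h3
    rw [nis_p2] at h3
    have e : (p2 (v 0) (v 1) : Fin 2 → ℕ) = v := p2_eta v
    rw [e] at h3
    exact Bool.eq_iff_iff.2 h3
  · exact Bool.eq_iff_iff.2 (h2 i u)

theorem IsoBy.yP {σ : Equiv.Perm ℕ} {x y : US b2} (h : IsoBy σ x y) (m : ℕ) :
    NC.yP y (σ m) ↔ NC.yP x m := h.un 0 m

theorem IsoBy.yL {σ : Equiv.Perm ℕ} {x y : US b2} (h : IsoBy σ x y) (m n : ℕ) :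
    NC.yL y (σ m) (σ n) ↔ NC.yL x m n := h.rl 1 m n

theorem IsoBy.yI {σ : Equiv.Perm ℕ} {x y : US b2} (h : IsoBy σ x y) (m n : ℕ) :
    NC.yI y (σ m) (σ n) ↔ NC.yI x m n := h.rl 0 m n

theorem IsoBy.yE {σ : Equiv.Perm ℕ} {x y : US b2} (h : IsoBy σ x y) (n a b : ℕ) :
    NC.yE y (σ n) (σ a) (σ b) ↔ NC.yE x n a b := Ep.map σ h.yP h.yL n a b

theorem IsoBy.yl {σ : Equiv.Perm ℕ} {x y : US b2} (h : IsoBy σ x y) (m n : ℕ) :
    NC.yl y (σ m) (σ n) ↔ NC.yl x m n := by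
  unfold NC.yl
  rw [h.yL, σ.injective.eq_iff]

theorem IsoBy.yR {σ : Equiv.Perm ℕ} {x y : US b2} (h : IsoBy σ x y) (i m n : ℕ) :
    NC.yR y i (σ m) (σ n) ↔ NC.yR x i m n := by
  unfold NC.yR
  rw [h.un, σ.injective.eq_iff, ← σ.exists_congr_right]
  simp only [h.yP, h.yE, h.un]

theorem Coded.map {σ : Equiv.Perm ℕ} {x y z : US b2} {κ : ℕ → ℕ} (h : Coded x y κ)
    (hs : IsoBy σ y z) : Coded x z (⇑σ ∘ κ) where
  inj := σ.injective.comp h.inj
  rng n := by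
    constructor
    · intro h1
      have h2 := (h.rng (σ.symm n)).1 (by rw [← hs.yP, σ.apply_symm_apply]; exact h1)
      obtain ⟨k, hk⟩ := h2
      exact ⟨k, by rw [Function.comp_apply, hk, σ.apply_symm_apply]⟩
    · rintro ⟨k, rfl⟩
      exact (hs.yP _).2 ((h.rng _).2 ⟨k, rfl⟩)
  lt k l := by
    rw [h.lt]
    exact (hs.yL _ _).symm
  un i k := by
    rw [h.un]
    exact (hs.un _ _).symm
  rel i k l := by
    rw [h.rel]
    exact (hs.yR _ _ _).symm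

/-- two structures with the same code are isomorphic -/
theorem Coded.uniq {x x' y : US b2} {κ κ' : ℕ → ℕ} (h : Coded x y κ) (h' : Coded x' y κ') :
    UIso x x' := by
  have h1 : ∀ k, ∃ l, κ' l = κ k := fun k => (h'.rng _).1 ((h.rng _).2 ⟨k, rfl⟩)
  have h2 : ∀ k, ∃ l, κ l = κ' k := fun k => (h.rng _).1 ((h'.rng _).2 ⟨k, rfl⟩)
  choose f hf using h1
  choose g hg using h2
  let τ : Equiv.Perm ℕ :=
    { toFun := f
      invFun := g
      left_inv := fun k => h.inj (by rw [hg, hf])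
      right_inv := fun k => h'.inj (by rw [hf, hg]) }
  refine ⟨τ, isoBy_of (fun i m n => ?_) fun i u => ?_⟩
  · have e1 : κ' (τ m) = κ m := hf m
    have e2 : κ' (τ n) = κ n := hf n
    rcases i with _ | i
    · rw [h.lt, h'.lt, e1, e2]
    · rw [h.rel, h'.rel, e1, e2]
  · have e1 : κ' (τ u) = κ u := hf u
    have h3 := h.un i u
    have h4 := h'.un i (τ u)
    rw [e1] at h4
    exact h4.trans h3.symm

theorem Coded.pull {σ : Equiv.Perm ℕ} {x x' y : US b2} {κ : ℕ → ℕ} (h : Coded x y κ)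
    (hs : IsoBy σ x x') : Coded x' y (κ ∘ ⇑σ.symm) where
  inj := h.inj.comp σ.symm.injective
  rng n := by
    rw [h.rng]
    constructor
    · rintro ⟨k, rfl⟩
      exact ⟨σ k, by rw [Function.comp_apply, σ.symm_apply_apply]⟩
    · rintro ⟨k, rfl⟩
      exact ⟨σ.symm k, rfl⟩
  lt k l := by
    rw [← hs.symm.rl 0 k l, h.lt]
    rfl
  un i k := by
    rw [← hs.symm.2 i k, h.un]
    rfl
  rel i k l := by
    rw [← hs.symm.rl (i + 1) k l, h.rel]
    rfl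

end Pool.Agent.U97.NC
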