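import Mathlib

set_option autoImplicit false

/-!
Crossing components of a family of finite subsets of a linear order.
-/

namespace Pool.Agent.U97.NC

open Relation Set

section comb

variable {α : Type} [LinearOrder α]

/-- the sets `S` and `T` cross -/
def Cr (S T : Set α) : Prop := ∃ a b c d, a < b ∧ b < c ∧ c < d ∧
  ((a ∈ S ∧ c ∈ S ∧ b ∈ T ∧ d ∈ T) ∨ (a ∈ T ∧ c ∈ T ∧ b ∈ S ∧ d ∈ S))

theorem Cr.symm {S T : Set α} (h : Cr S T) : Cr T S := by
  obtain ⟨a, b, c, d, h1, h2, h3, h4⟩ := h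
  exact ⟨a, b, c, d, h1, h2, h3, h4.symm⟩

variable (F : Finset α → Prop)

/-- crossing members of the family -/
def Adj (S T : Finset α) : Prop := F S ∧ F T ∧ Cr (S : Set α) (T : Set α)

/-- members in the same component -/
def Lk (S T : Finset α) : Prop := ReflTransGen (Adj F) S T

/-- the union of the component -/
def W (S : Finset α) : Set α := {p | ∃ T, F T ∧ Lk F S T ∧ p ∈ T}

variable {F}

theorem Adj.symm {S T : Finset α} (h : Adj F S T) : Adj F T S := ⟨h.2.1, h.1, h.2.2.symm⟩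

theorem Lk.symm {S T : Finset α} (h : Lk F S T) : Lk F T S := by
  unfold Lk at h ⊢
  induction h with
  | refl => exact ReflTransGen.refl
  | tail _ h2 ih => exact ReflTransGen.head h2.symm ih

theorem Lk.trans {S T U : Finset α} (h : Lk F S T) (h' : Lk F T U) : Lk F S U :=
  ReflTransGen.trans h h'

theorem sub_W {S : Finset α} (hS : F S) : (S : Set α) ⊆ W F S :=
  fun _ hp => ⟨S, hS, ReflTransGen.refl, hp⟩

theorem W_eq {S S' : Finset α} (h : Lk F S S') : W F S = W F S' := by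
  ext p
  constructor
  · rintro ⟨T, h1, h2, h3⟩
    exact ⟨T, h1, h.symm.trans h2, h3⟩
  · rintro ⟨T, h1, h2, h3⟩
    exact ⟨T, h1, h.trans h2, h3⟩

/-- a set that crosses no member of a component does not cross its union -/
theorem W_not_cr {S : Finset α} {T : Set α}
    (hT : ∀ S', F S' → Lk F S S' → ¬ Cr (S' : Set α) T) : ¬ Cr (W F S) T := by
  intro hcr
  have h0 : ∃ β δ p q, β ∈ T ∧ δ ∈ T ∧ p ∈ W F S ∧ q ∈ W F S ∧ β < p ∧ p < δ ∧
      (q < β ∨ δ < q) := by
    obtain ⟨a, b, c, d, h1, h2, h3, ⟨h4, h5, h6, h7⟩ | ⟨h4, h5, h6, h7⟩⟩ := hcr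
    · exact ⟨b, d, c, a, h6, h7, h5, h4, h2, h3, Or.inl h1⟩
    · exact ⟨a, c, b, d, h4, h5, h6, h7, h1, h2, Or.inr h3⟩
  obtain ⟨β, δ, p, q, hβ, hδ, ⟨T1, f1, k1, hp⟩, ⟨T2, f2, k2, hq⟩, h1, h2, h3⟩ := h0
  have hβδ : β < δ := h1.trans h2
  -- each member is inside or outside
  have hio : ∀ S', F S' → Lk F S S' → (∀ s ∈ S', β ≤ s ∧ s ≤ δ) ∨ ∀ s ∈ S', ¬ (β < s ∧ s < δ) := by
    intro S' hf hk
    by_contra hcon
    rw [not_or] at hcon
    obtain ⟨c1, c2⟩ := hcon
    push Not at c1 c2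
    obtain ⟨s, hs, h4⟩ := c1
    obtain ⟨s', hs', h5, h6⟩ := c2
    apply hT S' hf hk
    rcases lt_or_ge s β with h7 | h7
    · exact ⟨s, β, s', δ, h7, h5, h6, Or.inl ⟨hs, hs', hβ, hδ⟩⟩
    · exact ⟨β, s', δ, s, h5, h6, h4 h7, Or.inr ⟨hβ, hδ, hs', hs⟩⟩
  -- the type does not change along crossings
  have hprop : ∀ S', Lk F T1 S' → F S' ∧ ∀ s ∈ S', β ≤ s ∧ s ≤ δ := by
    intro S' hk
    unfold Lk at hk
    induction hk with
    | refl =>
      refine ⟨f1, ?_⟩
      rcases hio T1 f1 k1 with h4 | h4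
      · exact h4
      · exact absurd ⟨h1, h2⟩ (h4 p hp)
    | @tail S1 S2 ha hb ih =>
      refine ⟨hb.2.1, ?_⟩
      have hk2 : Lk F S S2 := k1.trans (ReflTransGen.tail ha hb)
      rcases hio S2 hb.2.1 hk2 with h4 | h4
      · exact h4
      · exfalso
        obtain ⟨a, b, c, d, g1, g2, g3, ⟨g4, g5, g6, g7⟩ | ⟨g4, g5, g6, g7⟩⟩ := hb.2.2
        · exact h4 b g6 ⟨lt_of_le_of_lt (ih.2 a g4).1 g1, lt_of_lt_of_le g2 (ih.2 c g5).2⟩
        · exact h4 c g5 ⟨lt_of_le_of_lt (ih.2 b g6).1 g2, lt_of_lt_of_le g3 (ih.2 d g7).2⟩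
  have h4 := (hprop T2 (k1.symm.trans k2)).2 q hq
  rcases h3 with h3 | h3
  · exact absurd h3 (not_lt.2 h4.1)
  · exact absurd h3 (not_lt.2 h4.2)

/-- the unions of different components do not cross -/
theorem W_W {S S' : Finset α} : W F S = W F S' ∨ ¬ Cr (W F S) (W F S') := by
  by_cases h : Lk F S S'
  · exact Or.inl (W_eq h)
  right
  have h1 : ∀ T', F T' → Lk F S' T' → ¬ Cr (W F S) (T' : Set α) := by
    intro T' hT' hk'
    refine W_not_cr fun T hT hk hcr => h ?_
    exact hk.trans ((ReflTransGen.single ⟨hT, hT', hcr⟩ : Lk F T T').trans hk'.symm)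
  intro h2
  refine W_not_cr (F := F) (S := S') (T := W F S) (fun T' hT' hk' h3 => ?_) h2.symm
  exact h1 T' hT' hk' h3.symm

variable (F)

/-- `w` enumerates the union of a component in increasing order -/
def Poly {n : ℕ} (w : Fin n → α) : Prop := StrictMono w ∧ ∃ S, F S ∧ range w = W F S

variable {F}

theorem Poly.cr {m n : ℕ} {w : Fin m → α} {w' : Fin n → α} (h : Poly F w) (h' : Poly F w') :
    range w = range w' ∨ ¬ Cr (range w) (range w') := by
  obtain ⟨-, S, -, h1⟩ := h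
  obtain ⟨-, S', -, h2⟩ := h'
  rw [h1, h2]
  exact W_W

/-- a point between two consecutive values -/
theorem exists_gap {n : ℕ} {w : Fin (n + 1) → α} {y : α} (h0 : w 0 ≤ y) (h1 : y ≤ w (Fin.last n))
    (hy : y ∉ range w) : ∃ k : Fin n, w k.castSucc < y ∧ y < w k.succ := by
  classical
  let s : Finset (Fin (n + 1)) := Finset.univ.filter fun k => w k < y
  have h0' : w 0 < y := lt_of_le_of_ne h0 fun e => hy ⟨0, e⟩
  have h1' : y < w (Fin.last n) := lt_of_le_of_ne h1 fun e => hy ⟨_, e.symm⟩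
  have hs : s.Nonempty := ⟨0, Finset.mem_filter.2 ⟨Finset.mem_univ _, h0'⟩⟩
  obtain ⟨k, hk⟩ : ∃ k, k = s.max' hs := ⟨_, rfl⟩
  have hks : w k < y := by
    have := s.max'_mem hs
    rw [← hk] at this
    exact (Finset.mem_filter.1 this).2
  have hkl : k ≠ Fin.last n := by
    rintro rfl
    exact absurd h1' (not_lt.2 hks.le)
  obtain ⟨j, rfl⟩ := Fin.exists_castSucc_eq.2 hkl
  refine ⟨j, hks, ?_⟩
  by_contra h2
  rw [not_lt] at h2
  have h3 : w j.succ < y := lt_of_le_of_ne h2 fun e => hy ⟨_, e⟩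
  have h4 : j.succ ≤ s.max' hs := s.le_max' _ (Finset.mem_filter.2 ⟨Finset.mem_univ _, h3⟩)
  rw [← hk] at h4
  exact absurd h4 (not_le.2 (Fin.castSucc_lt_succ (i := j)))

/-- no value lies between two consecutive values -/
theorem no_gap {n : ℕ} {w : Fin (n + 1) → α} (hw : StrictMono w) (k : Fin n) {y : α}
    (h1 : w k.castSucc < y) (h2 : y < w k.succ) : y ∉ range w := by
  rintro ⟨j, rfl⟩
  rw [hw.lt_iff_lt] at h1 h2
  rw [Fin.lt_def] at h1 h2
  simp at h1 h2
  omega

/-- a union of a component is determined by its sides and its ends -/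
theorem Poly.det {n : ℕ} {w w' : Fin (n + 1) → α} (hw : StrictMono w) (h' : Poly F w')
    (h0 : w' 0 = w 0) (h1 : w' (Fin.last n) = w (Fin.last n))
    (hs : ∀ k : Fin n, ∃ w'' : Fin (n + 1) → α, Poly F w'' ∧ w'' k.castSucc = w k.castSucc ∧
      w'' k.succ = w k.succ) : w' = w := by
  have hsub : range w' ⊆ range w := by
    rintro _ ⟨j, rfl⟩
    by_contra hj
    have a1 : w 0 ≤ w' j := by
      rw [← h0]
      exact h'.1.monotone (Fin.zero_le j)
    have a2 : w' j ≤ w (Fin.last n) := by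
      rw [← h1]
      exact h'.1.monotone (Fin.le_last j)
    obtain ⟨k, hk1, hk2⟩ := exists_gap a1 a2 hj
    obtain ⟨w'', hp, e1, e2⟩ := hs k
    rcases hp.cr h' with hr | hr
    · have h3 : w' j ∉ range w'' := no_gap hp.1 k (by rw [e1]; exact hk1) (by rw [e2]; exact hk2)
      rw [hr] at h3
      exact h3 ⟨j, rfl⟩
    · by_cases hl : w k.succ < w (Fin.last n)
      · apply hr
        refine ⟨w k.castSucc, w' j, w k.succ, w (Fin.last n), hk1, hk2, hl,
          Or.inl ⟨⟨_, e1⟩, ⟨_, e2⟩, ⟨j, rfl⟩, ⟨Fin.last n, h1⟩⟩⟩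
      · by_cases hf : w 0 < w k.castSucc
        · apply hr
          refine ⟨w 0, w k.castSucc, w' j, w k.succ, hf, hk1, hk2,
            Or.inr ⟨⟨0, h0⟩, ⟨j, rfl⟩, ⟨_, e1⟩, ⟨_, e2⟩⟩⟩
        · rw [hw.lt_iff_lt] at hl hf
          rw [Fin.lt_def] at hl hf
          simp at hl hf
          have hn : n = 1 := by
            have := k.2
            omega
          subst hn
          have hj' : j = 0 ∨ j = Fin.last 1 := by
            rcases j with ⟨j, hj2⟩
            rcases j with _ | _ | j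
            · exact Or.inl rfl
            · exact Or.inr rfl
            · omega
          rcases hj' with rfl | rfl
          · exact hj ⟨0, h0.symm⟩
          · exact hj ⟨Fin.last 1, h1.symm⟩
  have hfin : (range w).Finite := Set.finite_range w
  have heq : range w' = range w := by
    refine Set.eq_of_subset_of_ncard_le hsub ?_ hfin
    rw [Set.ncard_range_of_injective hw.injective, Set.ncard_range_of_injective h'.1.injective]
  exact (h'.1.range_inj hw).1 heq

/-- increasing enumerations -/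
theorem enum_gen (V : Finset α) (hV : V.Nonempty) :
    ∃ n, ∃ w : Fin (n + 1) → α, StrictMono w ∧ ∀ u, (∃ j, w j = u) ↔ u ∈ V := by
  obtain ⟨n, hn⟩ : ∃ n, V.card = n + 1 :=
    ⟨V.card - 1, by have := Finset.card_pos.2 hV; omega⟩
  refine ⟨n, fun j => V.orderEmbOfFin hn j, fun s t hst => ?_, fun u => ?_⟩
  · exact (V.orderEmbOfFin hn).strictMono hst
  · constructor
    · rintro ⟨j, rfl⟩
      exact V.orderEmbOfFin_mem hn j
    · intro hu
      have h3 : u ∈ Set.range (V.orderEmbOfFin hn) := by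
        rw [Finset.range_orderEmbOfFin]
        exact hu
      exact h3

end comb

end Pool.Agent.U97.NC
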