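import Pool.Agent.U97.NC.Read

set_option autoImplicit false

/-!
Every ordered structure with non-crossing relations has a code, and codes are decomposable.
-/

namespace Pool.Agent.U97.NC

open Set MeasureTheory
open Pool.Agent.H533R2.VO (RS RIso VC Dich)
open Pool.Agent.H533R2.VS
open Pool.Agent.N481.VT (SLO)

section ex

variable (x : US b2)

/-- points and arcs -/
abbrev Z : Type := ℕ ⊕ {q : ℕ × ℕ // Arc x.1 q.1 q.2}

variable {x}

/-- left end -/
def lp : Z x → ℕ := Sum.elim id fun q => q.1.1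
/-- right end -/
def rp : Z x → ℕ := Sum.elim id fun q => q.1.2
/-- is a point -/
def iP (z : Z x) : Prop := ∃ k, z = Sum.inl k
/-- weak order -/
def le (x : US b2) (a b : ℕ) : Prop := a = b ∨ rl x.1 0 a b

/-- the labels -/
def uZ (j : ℕ) (z : Z x) : Prop := (j = 0 ∧ iP z) ∨
  (∃ i, j = 3 * i + 1 ∧ ∃ k, z = Sum.inl k ∧ x.2 i k = true) ∨
  (∃ i, j = 3 * i + 2 ∧ rl x.1 (i + 1) (lp z) (rp z)) ∨
  (∃ i, j = 3 * i + 3 ∧ ¬ iP z ∧ rl x.1 (i + 1) (rp z) (lp z))

/-- to the left -/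
def LZ (z w : Z x) : Prop := z ≠ w ∧ le x (rp z) (lp w)
/-- inside -/
def IZ (z w : Z x) : Prop := z ≠ w ∧ ¬ iP w ∧ le x (lp w) (lp z) ∧ le x (rp z) (rp w) ∧
  ¬ le x (rp z) (lp w) ∧ ¬ le x (rp w) (lp z)

open Classical in
/-- the code for a numbering -/
noncomputable def cod (e : ℕ ≃ Z x) : US b2 :=
  (fun i v => match i with
    | 0 => decide (IZ (e (v 0)) (e (v 1)))
    | 1 => decide (LZ (e (v 0)) (e (v 1)))
    | _ => false,
   fun j n => decide (uZ j (e n)))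

variable (e : ℕ ≃ Z x)

open Classical in
theorem cod_I (m n : ℕ) : yI (cod e) m n ↔ IZ (e m) (e n) := by
  show decide _ = true ↔ _
  rw [decide_eq_true_eq]
  exact Iff.rfl

open Classical in
theorem cod_L (m n : ℕ) : yL (cod e) m n ↔ LZ (e m) (e n) := by
  show decide _ = true ↔ _
  rw [decide_eq_true_eq]
  exact Iff.rfl

open Classical in
theorem cod_U (j n : ℕ) : yU (cod e) j n ↔ uZ j (e n) := by
  show decide _ = true ↔ _
  rw [decide_eq_true_eq]

theorem uZ_0 (z : Z x) : uZ 0 z ↔ iP z := by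
  unfold uZ
  constructor
  · rintro (⟨-, h⟩ | ⟨i, h, -⟩ | ⟨i, h, -⟩ | ⟨i, h, -⟩)
    · exact h
    · omega
    · omega
    · omega
  · intro h
    exact Or.inl ⟨rfl, h⟩

theorem uZ_1 (i : ℕ) (z : Z x) :
    uZ (3 * i + 1) z ↔ ∃ k, z = Sum.inl k ∧ x.2 i k = true := by
  unfold uZ
  constructor
  · rintro (⟨h, -⟩ | ⟨j, h, h2⟩ | ⟨j, h, -⟩ | ⟨j, h, -⟩)
    · omega
    · obtain rfl : i = j := by omega
      exact h2
    · omega
    · omega
  · intro h
    exact Or.inr (Or.inl ⟨i, rfl, h⟩)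

theorem uZ_2 (i : ℕ) (z : Z x) : uZ (3 * i + 2) z ↔ rl x.1 (i + 1) (lp z) (rp z) := by
  unfold uZ
  constructor
  · rintro (⟨h, -⟩ | ⟨j, h, h2⟩ | ⟨j, h, h2⟩ | ⟨j, h, -⟩)
    · omega
    · omega
    · obtain rfl : i = j := by omega
      exact h2
    · omega
  · intro h
    exact Or.inr (Or.inr (Or.inl ⟨i, rfl, h⟩))

theorem uZ_3 (i : ℕ) (z : Z x) :
    uZ (3 * i + 3) z ↔ ¬ iP z ∧ rl x.1 (i + 1) (rp z) (lp z) := by
  unfold uZ
  constructor
  · rintro (⟨h, -⟩ | ⟨j, h, h2⟩ | ⟨j, h, h2⟩ | ⟨j, h, h2⟩)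
    · omega
    · omega
    · omega
    · obtain rfl : i = j := by omega
      exact h2
  · intro h
    exact Or.inr (Or.inr (Or.inr ⟨i, rfl, h⟩))

theorem cod_P (n : ℕ) : yP (cod e) n ↔ iP (e n) := (cod_U e 0 n).trans (uZ_0 _)

/-- the number of the point `k` -/
noncomputable def kp (k : ℕ) : ℕ := e.symm (Sum.inl k)

theorem e_kp (k : ℕ) : e (kp e k) = Sum.inl k := e.apply_symm_apply _

theorem kp_inj : Function.Injective (kp e) := fun k l h => by
  have := e.symm.injective h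
  exact Sum.inl.inj this

theorem cod_rng (n : ℕ) : yP (cod e) n ↔ ∃ k, kp e k = n := by
  rw [cod_P]
  constructor
  · rintro ⟨k, hk⟩
    exact ⟨k, by unfold kp; rw [← hk, e.symm_apply_apply]⟩
  · rintro ⟨k, rfl⟩
    exact ⟨k, e_kp e k⟩

theorem cod_lt (hx : NCB x.1) (k l : ℕ) : yL (cod e) (kp e k) (kp e l) ↔ rl x.1 0 k l := by
  rw [cod_L, e_kp, e_kp]
  unfold LZ le
  constructor
  · rintro ⟨h1, h2 | h2⟩
    · exact absurd (congrArg Sum.inl h2) h1
    · exact h2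
  · intro h
    refine ⟨fun h1 => ?_, Or.inr h⟩
    have := Sum.inl.inj h1
    subst this
    exact hx.lin.irr _ h

theorem cod_le (hx : NCB x.1) (k l : ℕ) : yl (cod e) (kp e k) (kp e l) ↔ le x k l := by
  unfold yl
  rw [cod_lt e hx, (kp_inj e).eq_iff]
  exact Iff.rfl

theorem cod_po (hx : NCB x.1) : PO (yP (cod e)) (yL (cod e)) where
  irr m hm := by
    obtain ⟨k, rfl⟩ := (cod_rng e m).1 hm
    rw [cod_lt e hx]
    exact hx.lin.irr k
  tr m n k hm hn hk h1 h2 := by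
    obtain ⟨m, rfl⟩ := (cod_rng e m).1 hm
    obtain ⟨n, rfl⟩ := (cod_rng e n).1 hn
    obtain ⟨k, rfl⟩ := (cod_rng e k).1 hk
    rw [cod_lt e hx] at h1 h2 ⊢
    exact hx.lin.tr _ _ _ h1 h2
  tot m n hm hn := by
    obtain ⟨m, rfl⟩ := (cod_rng e m).1 hm
    obtain ⟨n, rfl⟩ := (cod_rng e n).1 hn
    rw [cod_lt e hx, cod_lt e hx, (kp_inj e).eq_iff]
    exact hx.lin.tot _ _

theorem cod_E (hx : NCB x.1) (n : ℕ) : yE (cod e) n (kp e (lp (e n))) (kp e (rp (e n))) := by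
  refine ⟨(cod_rng e _).2 ⟨_, rfl⟩, (cod_rng e _).2 ⟨_, rfl⟩, ?_⟩
  obtain ⟨z, hz⟩ : ∃ z, z = e n := ⟨_, rfl⟩
  have hn : n = e.symm z := by rw [hz, e.symm_apply_apply]
  rw [← hz]
  rcases z with k | q
  · left
    refine ⟨(cod_P e n).2 ⟨k, hz.symm⟩, ?_, ?_⟩
    · exact hn.symm
    · exact hn.symm
  · right
    refine ⟨fun h => ?_, ?_, fun z hz' => ?_, fun z hz' => ?_⟩
    · obtain ⟨k, hk⟩ := (cod_P e n).1 h
      rw [← hz] at hk
      exact Sum.inr_ne_inl hk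
    · rw [cod_lt e hx]
      exact q.2.1
    · obtain ⟨j, rfl⟩ := (cod_rng e z).1 hz'
      rw [cod_L, ← hz, e_kp, cod_lt e hx, (kp_inj e).eq_iff]
      unfold LZ
      constructor
      · exact fun h => h.2
      · exact fun h => ⟨Sum.inl_ne_inr, h⟩
    · obtain ⟨j, rfl⟩ := (cod_rng e z).1 hz'
      rw [cod_L, ← hz, e_kp, cod_lt e hx, (kp_inj e).eq_iff]
      unfold LZ
      constructor
      · intro h
        rcases h.2 with h2 | h2
        · exact Or.inl h2.symm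
        · exact Or.inr h2
      · intro h
        refine ⟨Sum.inr_ne_inl, ?_⟩
        rcases h with h2 | h2
        · exact Or.inl h2.symm
        · exact Or.inr h2

theorem cod_E_iff (hx : NCB x.1) {n a b : ℕ} (h : yE (cod e) n a b) :
    a = kp e (lp (e n)) ∧ b = kp e (rp (e n)) := Ep.uniq (cod_po e hx) h (cod_E e hx n)

theorem lp_iP {z : Z x} (h : iP z) : lp z = rp z ∧ z = Sum.inl (lp z) := by
  obtain ⟨k, rfl⟩ := h
  exact ⟨rfl, rfl⟩

theorem inr_of {z : Z x} (h : ¬ iP z) : ∃ q : {q : ℕ × ℕ // Arc x.1 q.1 q.2}, z = Sum.inr q := by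
  rcases z with k | q
  · exact absurd ⟨k, rfl⟩ h
  · exact ⟨q, rfl⟩

theorem cod_good (hx : NCB x.1) : Good (cod e) := by
  refine ⟨fun m => ?_, cod_po e hx, fun n => ⟨_, _, cod_E e hx n⟩, fun m n a b c d h1 h2 => ?_,
    fun m n a b c d h1 h2 => ?_, fun m n a b h1 h2 h3 h4 => ?_, fun n h1 => ?_, fun n i h1 => ?_,
    fun n i h1 => ?_, fun i v => rfl⟩
  · have hinf := Set.infinite_range_of_injective (kp_inj e)
    rw [Set.infinite_iff_exists_gt] at hinf
    obtain ⟨b, ⟨k, rfl⟩, hb⟩ := hinf m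
    exact ⟨_, hb.le, (cod_rng e _).2 ⟨k, rfl⟩⟩
  · obtain ⟨rfl, rfl⟩ := cod_E_iff e hx h1
    obtain ⟨rfl, rfl⟩ := cod_E_iff e hx h2
    rw [cod_L, cod_le e hx]
    unfold LZ
    rw [e.injective.ne_iff]
  · obtain ⟨rfl, rfl⟩ := cod_E_iff e hx h1
    obtain ⟨rfl, rfl⟩ := cod_E_iff e hx h2
    rw [cod_I, cod_le e hx, cod_le e hx, cod_le e hx, cod_le e hx, cod_P]
    unfold IZ
    rw [e.injective.ne_iff]
  · obtain ⟨e1, e2⟩ := cod_E_iff e hx h3
    obtain ⟨e3, e4⟩ := cod_E_iff e hx h4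
    rw [e1] at e3
    rw [e2] at e4
    have f1 := kp_inj e e3
    have f2 := kp_inj e e4
    rw [cod_P] at h1 h2
    obtain ⟨q, hq⟩ := inr_of h1
    obtain ⟨q', hq'⟩ := inr_of h2
    rw [hq, hq'] at f1 f2
    have f3 : q = q' := Subtype.ext (Prod.ext f1 f2)
    apply e.injective
    rw [hq, hq', f3]
  · rw [cod_P] at h1
    obtain ⟨q, hq⟩ := inr_of h1
    obtain ⟨i, hi⟩ := q.2.2
    refine ⟨i, ?_⟩
    rw [cod_U, cod_U, uZ_2, uZ_3, hq]
    rcases hi with hi | hi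
    · exact Or.inl hi
    · refine Or.inr ⟨?_, hi⟩
      rw [← hq]
      exact h1
  · rw [cod_P] at h1
    rw [cod_U, uZ_1]
    rintro ⟨k, hk, -⟩
    exact h1 ⟨k, hk⟩
  · rw [cod_P] at h1
    rw [cod_U, uZ_3]
    rintro ⟨h2, -⟩
    exact h2 h1

theorem cod_coded (hx : NCB x.1) : Coded x (cod e) (kp e) := by
  refine ⟨kp_inj e, cod_rng e, fun k l => (cod_lt e hx k l).symm, fun i k => ?_,
    fun i k l => ?_⟩
  · rw [cod_U, uZ_1, e_kp]
    constructor
    · intro h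
      exact ⟨k, rfl, h⟩
    · rintro ⟨k', h1, h2⟩
      rw [Sum.inl.inj h1]
      exact h2
  · unfold yR
    constructor
    · intro h
      rcases hx.lin.tot k l with rfl | h1 | h1
      · left
        refine ⟨rfl, ?_⟩
        rw [cod_U, uZ_2, e_kp]
        exact h
      · right
        have ha : Arc x.1 k l := ⟨h1, i, Or.inl h⟩
        have h2 := cod_E e hx (e.symm (Sum.inr ⟨(k, l), ha⟩))
        rw [e.apply_symm_apply] at h2
        refine ⟨e.symm (Sum.inr ⟨(k, l), ha⟩), ?_, Or.inl ⟨h2, ?_⟩⟩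
        · rw [cod_P, e.apply_symm_apply]
          rintro ⟨k', h3⟩
          exact Sum.inr_ne_inl h3
        · rw [cod_U, uZ_2, e.apply_symm_apply]
          exact h
      · right
        have ha : Arc x.1 l k := ⟨h1, i, Or.inr h⟩
        have h2 := cod_E e hx (e.symm (Sum.inr ⟨(l, k), ha⟩))
        rw [e.apply_symm_apply] at h2
        have hnp : ¬ iP (Sum.inr ⟨(l, k), ha⟩ : Z x) := by
          rintro ⟨k', h3⟩
          exact Sum.inr_ne_inl h3
        refine ⟨e.symm (Sum.inr ⟨(l, k), ha⟩), ?_, Or.inr ⟨h2, ?_⟩⟩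
        · rw [cod_P, e.apply_symm_apply]
          exact hnp
        · rw [cod_U, uZ_3, e.apply_symm_apply]
          exact ⟨hnp, h⟩
    · rintro (⟨h1, h2⟩ | ⟨n, hn, ⟨h1, h2⟩ | ⟨h1, h2⟩⟩)
      · have := kp_inj e h1
        subst this
        rw [cod_U, uZ_2, e_kp] at h2
        exact h2
      · obtain ⟨e1, e2⟩ := cod_E_iff e hx h1
        rw [cod_U, uZ_2, ← kp_inj e e1, ← kp_inj e e2] at h2
        exact h2
      · obtain ⟨e1, e2⟩ := cod_E_iff e hx h1
        rw [cod_U, uZ_3, ← kp_inj e e1, ← kp_inj e e2] at h2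
        exact h2.2

end ex

/-- every structure has a good code -/
theorem exists_code (x : US b2) (hx : NCB x.1) : ∃ y κ, Good y ∧ Coded x y κ := by
  obtain ⟨e⟩ : Nonempty (ℕ ≃ Z x) := nonempty_equiv_of_countable
  exact ⟨cod e, kp e, cod_good e hx, cod_coded e hx⟩

/-! ### decomposability -/

open Classical in
/-- the linear order -/
@[reducible] noncomputable def mkLO {α : Type} {lt : α → α → Prop} (irr : ∀ m, ¬ lt m m)
    (tr : ∀ m n k, lt m n → lt n k → lt m k) (tot : ∀ m n, m = n ∨ lt m n ∨ lt n m) :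
    LinearOrder α where
  le a b := a = b ∨ lt a b
  lt := lt
  le_refl a := Or.inl rfl
  le_trans a b c h1 h2 := by
    rcases h1 with rfl | h1
    · exact h2
    · rcases h2 with rfl | h2
      · exact Or.inr h1
      · exact Or.inr (tr _ _ _ h1 h2)
  le_antisymm a b h1 h2 := by
    rcases h1 with h1 | h1
    · exact h1
    · rcases h2 with h2 | h2
      · exact h2.symm
      · exact absurd (tr _ _ _ h1 h2) (irr a)
  lt_iff_le_not_ge a b := by
    constructor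
    · intro h1
      refine ⟨Or.inr h1, ?_⟩
      rintro (h2 | h2)
      · subst h2; exact irr _ h1
      · exact irr _ (tr _ _ _ h1 h2)
    · rintro ⟨h1 | h1, h2⟩
      · exact absurd (Or.inl h1.symm) h2
      · exact h1
  le_total a b := by
    rcases tot a b with h1 | h1 | h1
    · exact Or.inl (Or.inl h1)
    · exact Or.inl (Or.inr h1)
    · exact Or.inr (Or.inr h1)
  toDecidableLE := Classical.decRel _

/-- the linear order of a strict linear order -/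
@[reducible] noncomputable def lo {lt : ℕ → ℕ → Prop} (h : SLO lt) : LinearOrder ℕ :=
  mkLO h.irr h.tr h.tot

theorem dec_of_coded {x y : US b2} {κ : ℕ → ℕ} (h : Coded x y κ) (hy : Good y)
    (hx : NCB x.1) : DecG y.1 := by
  refine ⟨fun i hi => absurd rfl hi, fun F hF => ?_⟩
  choose l r hlr using h.ends hy
  have hlt : ∀ n, ¬ yP y n → rl x.1 0 (l n) (r n) := fun n hn => h.arc_lt hn (hlr n)
  have hpt : ∀ n, yP y n → κ (l n) = n ∧ κ (r n) = n := fun n hn => by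
    obtain ⟨e1, e2⟩ := Ep.uniq hy.po (hlr n) (hy.pt hn)
    exact ⟨e1, e2⟩
  have hArr : @Arr ℕ (lo hx.lin) ℕ (yP y) l r := by
    refine @Arr.mk ℕ (lo hx.lin) ℕ (yP y) l r (fun m hm => ?_) (fun m hm => hlt m hm)
      (fun m n hm hn h1 h2 h3 => ?_) (fun m n hm hn h1 => ?_) (fun m n hm hn h1 h2 => ?_)
    · exact h.inj ((hpt m hm).1.trans (hpt m hm).2.symm)
    · have a1 : ∀ n, ¬ yP y n → Arc x.1 (l n) (r n) := by
        intro n hn
        refine ⟨hlt n hn, ?_⟩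
        obtain ⟨i, hi⟩ := hy.lab n hn
        exact ⟨i, by rw [← h.lab2 hy hn (hlr n), ← h.lab3 hy hn (hlr n)]; exact hi⟩
      exact hx.nc _ _ _ _ (a1 m hm) (a1 n hn) h1 h2 h3
    · rw [← (hpt m hm).1, ← (hpt n hn).1, h1]
    · refine hy.inj m n _ _ hm hn (hlr m) ?_
      rw [h1, h2]
      exact hlr n
  obtain ⟨X, hX1, hX2, hX3, hX4⟩ := @Arr.module ℕ (lo hx.lin) ℕ (yP y) l r hArr F (by omega)
  have hle : ∀ a b, yl y (κ a) (κ b) ↔ (a = b ∨ rl x.1 0 a b) := by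
    intro a b
    unfold yl
    rw [h.lt, h.inj.eq_iff]
  have hL : ∀ m n, yL y m n ↔ @Lf ℕ (lo hx.lin) ℕ l r m n := by
    intro m n
    rw [hy.lf _ _ _ _ _ _ (hlr m) (hlr n), hle]
    exact Iff.rfl
  have hI : ∀ m n, yI y m n ↔ @In ℕ (lo hx.lin) ℕ (yP y) l r m n := by
    intro m n
    rw [hy.inn _ _ _ _ _ _ (hlr m) (hlr n), hle, hle, hle, hle]
    exact Iff.rfl
  refine ⟨X, hX1, hX2, hX3, fun u hu v hv w hw hwX i => ?_⟩
  obtain ⟨c1, c2, c3, c4⟩ := hX4 u hu v hv w hw hwX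
  rw [← hL, ← hL] at c1 c2
  rw [← hI, ← hI] at c3 c4
  rcases i with _ | _ | i
  · exact ⟨Bool.eq_iff_iff.2 c3, Bool.eq_iff_iff.2 c4⟩
  · exact ⟨Bool.eq_iff_iff.2 c1, Bool.eq_iff_iff.2 c2⟩
  · show (if b2 (i + 2) = 2 then y.1 (i + 2) (p2 u w) else false) =
      (if b2 (i + 2) = 2 then y.1 (i + 2) (p2 v w) else false) ∧
      (if b2 (i + 2) = 2 then y.1 (i + 2) (p2 w u) else false) =
      (if b2 (i + 2) = 2 then y.1 (i + 2) (p2 w v) else false)
    rw [hy.rest, hy.rest, hy.rest, hy.rest]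
    exact ⟨rfl, rfl⟩

end Pool.Agent.U97.NC
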