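import Pool.Agent.U97.NC.Can
import Pool.Agent.U97.SC.Thin

set_option autoImplicit false

/-!
The dichotomy for structures which are locally determined by relations with finite crossing
components.
-/

namespace Pool.Agent.U97.NC

open Set MeasureTheory Relation
open Pool.Agent.H533R2.VO (RS RIso VC Dich)
open Pool.Agent.H533R2.VS
open Pool.Agent.N481.VT (SLO)
open Pool.Agent.N481.VT.PM (DefB)
open Pool.Agent.U97.SC (DefN)
open Pool.Agent.W889.VC (BP cont_of_meas)
open Pool.Agent.TH425.FF (PCanon PExp cun_vcu pexp_vcu pexp_coan pexp_inv)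

/-! ### patterns -/

/-- patterns: the order, and the values of finitely many relations -/
abbrev Pt (b : ℕ → ℕ) (n : ℕ) (J : Finset ℕ) : Type :=
  (Fin n → Fin n → Bool) × ((j : J) → (Fin (b j) → Fin n) → Bool)

/-- the pattern of a tuple -/
def PT {b : ℕ → ℕ} (lt : ℕ → ℕ → Prop) (y : RS b) {n : ℕ} (J : Finset ℕ) (τ : Pt b n J)
    (v : Fin n → ℕ) : Prop :=
  (∀ s t, lt (v s) (v t) ↔ τ.1 s t = true) ∧
    ∀ (j : J) (c : Fin (b j) → Fin n), y j (v ∘ c) = true ↔ τ.2 j c = true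

/-- labels of patterns -/
abbrev PI (a b : ℕ → ℕ) : Type := Σ i : ℕ, Σ J : Finset ℕ, Pt b (a i) J

/-- all labels -/
abbrev LP (a b : ℕ → ℕ) : Type := Lb b ⊕ PI a b

instance (a b : ℕ → ℕ) : Nonempty (LP a b) := ⟨Sum.inl (Sum.inr (Sum.inl (0, 0)))⟩

theorem lp_countable (a b : ℕ → ℕ) : Countable (LP a b) := inferInstance

/-- an enumeration of the labels -/
noncomputable def en (a b : ℕ → ℕ) : ℕ → LP a b := (exists_surjective_nat (LP a b)).choose

theorem en_surj (a b : ℕ → ℕ) : Function.Surjective (en a b) :=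
  (exists_surjective_nat (LP a b)).choose_spec

/-- an index of a label -/
noncomputable def de {a b : ℕ → ℕ} (l : LP a b) : ℕ := (en_surj a b l).choose

theorem en_de {a b : ℕ → ℕ} (l : LP a b) : en a b (de l) = l := (en_surj a b l).choose_spec

section cd

variable {a b : ℕ → ℕ}

/-- the relations of the code -/
def cp (lt : ℕ → ℕ → Prop) (y : RS b) (x : RS a) : LP a b → ℕ → ℕ → Prop
  | Sum.inl l, u, u' => LR lt y l u u'
  | Sum.inr ⟨i, J, τ⟩, u, u' => u = u' ∧ ∀ w : Fin (a i) → ℕ, PT lt y J τ w → x i w = true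

/-- the relations of the code, numbered -/
def cq (lt : ℕ → ℕ → Prop) (y : RS b) (x : RS a) : ℕ → ℕ → ℕ → Prop
  | 0, u, u' => lt u u'
  | j + 1, u, u' => cp lt y x (en a b j) u u'

open Classical in
/-- the code -/
noncomputable def cdd (lt : ℕ → ℕ → Prop) (y : RS b) (x : RS a) : RS b2 := fun i v =>
  decide (cq lt y x i (v (0 : Fin 2)) (v (1 : Fin 2)))

theorem rl_cod (lt : ℕ → ℕ → Prop) (y : RS b) (x : RS a) (i m n : ℕ) :
    rl (cdd lt y x) i m n ↔ cq lt y x i m n := by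
  classical
  unfold rl cdd
  rw [decide_eq_true_eq]
  exact Iff.rfl

open Classical in
/-- decoding the auxiliary structure -/
noncomputable def dy (a b : ℕ → ℕ) (z : RS b2) : RS b := fun i v =>
  decide (Dd (rl z 0) (fun (l : Lb b) u u' => rl z (de (Sum.inl l : LP a b) + 1) u u') i v)

open Classical in
/-- decoding -/
noncomputable def dx (a b : ℕ → ℕ) (z : RS b2) : RS a := fun i v =>
  decide (∃ (J : Finset ℕ) (τ : Pt b (a i) J) (u : ℕ), PT (rl z 0) (dy a b z) J τ v ∧
    rl z (de (Sum.inr ⟨i, J, τ⟩ : LP a b) + 1) u u)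

theorem dy_cod {lt : ℕ → ℕ → Prop} {y : RS b} {x : RS a} (h : FC lt y) :
    dy a b (cdd lt y x) = y := by
  classical
  funext i v
  unfold dy
  apply Bool.eq_iff_iff.2
  rw [decide_eq_true_eq]
  have e1 : rl (cdd lt y x) 0 = lt := by
    funext u u'
    exact propext (rl_cod lt y x 0 u u')
  have e2 : (fun (l : Lb b) u u' => rl (cdd lt y x) (de (Sum.inl l : LP a b) + 1) u u') =
      LR lt y := by
    funext l u u'
    apply propext
    rw [rl_cod]
    show cp lt y x (en a b (de (Sum.inl l : LP a b))) u u' ↔ _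
    rw [en_de]
    exact Iff.rfl
  rw [e1, e2]
  exact h.dec i v

/-- the relation number `i` holds for `v`, and this is implied by the values of finitely many
relations -/
def Imp (lt : ℕ → ℕ → Prop) (y : RS b) (x : RS a) (i : ℕ) (v : Fin (a i) → ℕ) (J : Finset ℕ) :
    Prop :=
  ∀ w : Fin (a i) → ℕ, (∀ s t, lt (v s) (v t) ↔ lt (w s) (w t)) →
    (∀ j ∈ J, ∀ c : Fin (b j) → Fin (a i), y j (v ∘ c) = true ↔ y j (w ∘ c) = true) → x i w = true

theorem dx_cod {lt : ℕ → ℕ → Prop} {y : RS b} {x : RS a} (h : FC lt y)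
    (hx : ∀ i v, x i v = true → ∃ J, Imp lt y x i v J) :
    dx a b (cdd lt y x) = x := by
  classical
  funext i v
  unfold dx
  apply Bool.eq_iff_iff.2
  rw [decide_eq_true_eq, dy_cod h]
  have e1 : rl (cdd lt y x) 0 = lt := by
    funext u u'
    exact propext (rl_cod lt y x 0 u u')
  rw [e1]
  have e2 : ∀ (J : Finset ℕ) (τ : Pt b (a i) J) (u : ℕ),
      rl (cdd lt y x) (de (Sum.inr ⟨i, J, τ⟩ : LP a b) + 1) u u ↔
      ∀ w : Fin (a i) → ℕ, PT lt y J τ w → x i w = true := by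
    intro J τ u
    rw [rl_cod]
    show cp lt y x (en a b (de (Sum.inr ⟨i, J, τ⟩ : LP a b))) u u ↔ _
    rw [en_de]
    exact ⟨fun h1 => h1.2, fun h1 => ⟨rfl, h1⟩⟩
  constructor
  · rintro ⟨J, τ, u, h1, h2⟩
    exact (e2 J τ u).1 h2 v h1
  · intro hv
    classical
    obtain ⟨J, hJ⟩ := hx i v hv
    refine ⟨J, (fun s t => decide (lt (v s) (v t)), fun j c => y j (v ∘ c)), 0, ⟨fun s t => ?_,
      fun j c => Iff.rfl⟩, (e2 _ _ _).2 ?_⟩
    · simp only [decide_eq_true_eq]
    · rintro w ⟨h3, h4⟩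
      refine hJ w (fun s t => ?_) fun j hj c => ?_
      · rw [h3]
        simp only [decide_eq_true_eq]
      · exact (h4 ⟨j, hj⟩ c).symm

theorem ncb_cod {lt : ℕ → ℕ → Prop} {y : RS b} {x : RS a} (h : FC lt y) : NCB (cdd lt y x) := by
  have e1 : rl (cdd lt y x) 0 = lt := by
    funext u u'
    exact propext (rl_cod lt y x 0 u u')
  have e3 : ∀ m n, Arc (cdd lt y x) m n → lt m n ∧ ∃ l, LR lt y l m n ∨ LR lt y l n m := by
    rintro m n ⟨h1, i, h2⟩
    rw [e1] at h1
    refine ⟨h1, ?_⟩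
    rw [rl_cod, rl_cod] at h2
    change cp lt y x (en a b i) m n ∨ cp lt y x (en a b i) n m at h2
    generalize en a b i = t at h2
    rcases t with l | ⟨i', J, τ⟩
    · exact ⟨l, h2⟩
    · exfalso
      rcases h2 with h2 | h2
      · rw [h2.1] at h1
        exact h.lin.irr _ h1
      · rw [h2.1] at h1
        exact h.lin.irr _ h1
  refine ⟨by rw [e1]; exact h.lin, fun m n m' n' h1 h2 => ?_⟩
  rw [e1]
  obtain ⟨-, l, h3⟩ := e3 m n h1
  obtain ⟨-, l', h4⟩ := e3 m' n' h2
  exact fun h5 h6 => arcs_nc h h3 h4 h5 h6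

/-! ### equivariance -/

/-- the pattern is preserved -/
theorem PT.equi {σ : Equiv.Perm ℕ} {lt lt' : ℕ → ℕ → Prop} {y y' : RS b}
    (h : Is σ lt lt' y y') {n : ℕ} {J : Finset ℕ} (τ : Pt b n J) (v : Fin n → ℕ) :
    PT lt' y' J τ (⇑σ ∘ v) ↔ PT lt y J τ v := by
  unfold PT
  refine and_congr ?_ ?_
  · refine forall_congr' fun s => forall_congr' fun t => ?_
    exact iff_congr (h.hl _ _) Iff.rfl
  · refine forall_congr' fun j => forall_congr' fun c => ?_
    have e1 : (⇑σ ∘ v) ∘ c = ⇑σ ∘ (v ∘ c) := rfl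
    rw [e1, h.hx]

theorem cq_equi {σ : Equiv.Perm ℕ} {lt lt' : ℕ → ℕ → Prop} {y y' : RS b} {x x' : RS a}
    (h : Is σ lt lt' y y') (hx : ∀ i v, x' i (⇑σ ∘ v) = x i v) (i m n : ℕ) :
    cq lt' y' x' i (σ m) (σ n) ↔ cq lt y x i m n := by
  rcases i with _ | i
  · exact h.hl m n
  · show cp lt' y' x' (en a b i) (σ m) (σ n) ↔ cp lt y x (en a b i) m n
    rcases en a b i with l | ⟨i', J, τ⟩
    · show LR lt' y' l (σ m) (σ n) ↔ LR lt y l m n
      rw [h.lr_iff, σ.symm_apply_apply, σ.symm_apply_apply]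
    · refine and_congr σ.injective.eq_iff ?_
      constructor
      · intro h1 w hw
        rw [← hx]
        exact h1 _ ((PT.equi h τ w).2 hw)
      · intro h1 w hw
        have e1 : w = ⇑σ ∘ (⇑σ.symm ∘ w) := (comp_symm σ w).symm
        rw [e1] at hw ⊢
        rw [hx]
        exact h1 _ ((PT.equi h τ _).1 hw)

theorem act_ap {c : ℕ → ℕ} (σ : Equiv.Perm ℕ) (z : RS c) (i : ℕ) (v : Fin (c i) → ℕ) :
    act σ z i (⇑σ ∘ v) = z i v := by
  show z i (⇑σ.symm ∘ ⇑σ ∘ v) = z i v
  have e : (⇑σ.symm ∘ ⇑σ ∘ v) = v := by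
    funext j
    exact σ.symm_apply_apply (v j)
  rw [e]

theorem eq_act {c : ℕ → ℕ} (σ : Equiv.Perm ℕ) (z z' : RS c)
    (h : ∀ i v, z' i (⇑σ ∘ v) = z i v) : z' = act σ z := by
  funext i v
  have h1 := h i (⇑σ.symm ∘ v)
  rw [comp_symm] at h1
  exact h1

theorem cod_act {σ : Equiv.Perm ℕ} {lt lt' : ℕ → ℕ → Prop} {y y' : RS b} {x x' : RS a}
    (h : Is σ lt lt' y y') (hx : ∀ i v, x' i (⇑σ ∘ v) = x i v) :
    cdd lt' y' x' = act σ (cdd lt y x) := by
  refine eq_act σ _ _ fun i v => ?_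
  unfold cdd
  exact decide_eq_decide.2 (cq_equi h hx i _ _)

theorem rl_act (σ : Equiv.Perm ℕ) (z : RS b2) (i m n : ℕ) :
    rl (act σ z) i (σ m) (σ n) ↔ rl z i m n := by
  unfold rl
  rw [nis_p2, act_ap]

theorem dd_iff {σ : Equiv.Perm ℕ} {lt lt' : ℕ → ℕ → Prop} {L L' : Lb b → ℕ → ℕ → Prop}
    (hl : ∀ u v, lt' (σ u) (σ v) ↔ lt u v)
    (hL : ∀ l u v, L' l (σ u) (σ v) ↔ L l u v) (i : ℕ) (v : Fin (b i) → ℕ) :
    Dd lt' L' i (⇑σ ∘ v) ↔ Dd lt L i v := by
  constructor
  · intro h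
    have h2 : Dd lt L i (⇑σ.symm ∘ (⇑σ ∘ v)) := by
      refine dd_equi (σ := σ.symm) (fun u u' => ?_) (fun l u u' => ?_) h
      · rw [← hl, σ.apply_symm_apply, σ.apply_symm_apply]
      · rw [← hL, σ.apply_symm_apply, σ.apply_symm_apply]
    have e : (⇑σ.symm ∘ ⇑σ ∘ v) = v := by
      funext j
      exact σ.symm_apply_apply (v j)
    rw [e] at h2
    exact h2
  · exact fun h => dd_equi hl hL h

theorem dy_ap (σ : Equiv.Perm ℕ) (z : RS b2) (i : ℕ) (v : Fin (b i) → ℕ) :
    dy a b (act σ z) i (⇑σ ∘ v) = dy a b z i v := by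
  unfold dy
  exact decide_eq_decide.2 (dd_iff (fun u u' => rl_act σ z 0 u u')
    (fun l u u' => rl_act σ z _ u u') i v)

theorem dx_act (σ : Equiv.Perm ℕ) (z : RS b2) : dx a b (act σ z) = act σ (dx a b z) := by
  refine eq_act σ _ _ fun i v => ?_
  unfold dx
  refine decide_eq_decide.2 ?_
  have h : Is σ (rl z 0) (rl (act σ z) 0) (dy a b z) (dy a b (act σ z)) :=
    ⟨fun u u' => rl_act σ z 0 u u', fun i v => dy_ap σ z i v⟩
  refine exists_congr fun J => exists_congr fun τ => ?_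
  rw [← σ.exists_congr_right]
  refine exists_congr fun u => ?_
  rw [PT.equi h, rl_act]

/-! ### measurability -/

theorem bp_pt {Y : Type} [MeasurableSpace Y] {lt : Y → ℕ → ℕ → Prop} {X : Y → RS b}
    (h : MX lt X) {n : ℕ} (J : Finset ℕ) (τ : Pt b n J) (v : Fin n → ℕ) :
    BP fun y => PT (lt y) (X y) J τ v :=
  (BP.all fun s => BP.all fun t => (h.l _ _).iff (BP.const _)).and
    (BP.all fun j => BP.all fun c => (h.x _ _).iff (BP.const _))

theorem meas_rs {Y : Type} [MeasurableSpace Y] {c : ℕ → ℕ} {f : Y → RS c}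
    (h : ∀ i v, BP fun y => f y i v = true) : Measurable f := by
  refine measurable_pi_lambda _ fun i => measurable_pi_lambda _ fun v => ?_
  refine measurable_to_bool ?_
  exact h i v

theorem meas_cod {Y : Type} [MeasurableSpace Y] {lt : Y → ℕ → ℕ → Prop} {W : Y → RS b}
    {X : Y → RS a} (h : MX lt W) (hx : ∀ i v, BP fun y => X y i v = true) :
    Measurable fun y => cdd (lt y) (W y) (X y) := by
  classical
  refine meas_rs fun i v => ?_
  have key : ∀ m n, BP fun y => cq (lt y) (W y) (X y) i m n := by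
    intro m n
    rcases i with _ | i
    · exact h.l m n
    · show BP fun y => cp (lt y) (W y) (X y) (en a b i) m n
      rcases en a b i with l | ⟨i', J, τ⟩
      · exact h.lr l m n
      · exact (BP.const _).and (BP.all fun w => (bp_pt h J τ w).imp (hx i' w))
  refine (key (v (0 : Fin 2)) (v (1 : Fin 2))).congr fun y => ?_
  unfold cdd
  rw [decide_eq_true_eq]

theorem meas_dy : Measurable fun z : RS b2 => dy a b z := by
  classical
  refine meas_rs fun i v => ?_
  have h := bp_dd (a := b) (Y := RS b2) (lt := fun z => rl z 0)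
    (L := fun z l u u' => rl z (de (Sum.inl l : LP a b) + 1) u u')
    (fun u u' => bp_rl' 0 u u') (fun l u u' => bp_rl' _ u u') i v
  refine h.congr fun z => ?_
  unfold dy
  rw [decide_eq_true_eq]

theorem meas_dx : Measurable fun z : RS b2 => dx a b z := by
  classical
  refine meas_rs fun i v => ?_
  have hy : MX (fun z : RS b2 => rl z 0) (fun z => dy a b z) := by
    refine ⟨fun u u' => bp_rl' 0 u u', fun i v => ?_⟩
    have h : Measurable fun z : RS b2 => dy a b z i v :=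
      (measurable_pi_apply v).comp ((measurable_pi_apply i).comp meas_dy)
    exact h (measurableSet_singleton true)
  have h : BP fun z : RS b2 => ∃ (J : Finset ℕ) (τ : Pt b (a i) J) (u : ℕ),
      PT (rl z 0) (dy a b z) J τ v ∧ rl z (de (Sum.inr ⟨i, J, τ⟩ : LP a b) + 1) u u :=
    BP.ex fun J => BP.ex fun τ => BP.ex fun u => (bp_pt hy J τ v).and (bp_rl' _ u u)
  refine h.congr fun z => ?_
  unfold dx
  rw [decide_eq_true_eq]

end cd

/-! ### the theorem -/

section main

variable {a : ℕ → ℕ}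

open Classical in
/-- the auxiliary structure -/
noncomputable def ax {b : ℕ → ℕ} (E : (j : ℕ) → List ℕ → RS a → (Fin (b j) → ℕ) → Prop)
    (p : List ℕ) (x : RS a) : RS b := fun j v => decide (E j p x v)

theorem pcanon_cod {b : ℕ → ℕ} {D : List ℕ → RS a → ℕ → ℕ → Prop}
    {E : (j : ℕ) → List ℕ → RS a → (Fin (b j) → ℕ) → Prop} (hD : DefB D)
    (hE : ∀ j, DefN (E j)) :
    PCanon (fun p (x : RS a) => cdd (D p x) (ax E p x) x) (fun _ => dx a b) where
  meas p := by
    classical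
    refine meas_cod ⟨fun u v => hD.meas p u v, fun i v => ?_⟩ fun i v => ?_
    · refine BP.congr (p := fun x => E i p x v) ((hE i).meas p v) fun x => ?_
      unfold ax
      rw [decide_eq_true_eq]
    · have h : Measurable fun x : RS a => x i v := (measurable_pi_apply v).comp
        (measurable_pi_apply i)
      exact h (measurableSet_singleton true)
  dmeas _ := meas_dx
  cact σ p x := by
    refine cod_act ⟨fun u v => hD.equi p x σ u v, fun i v => ?_⟩ fun i v => act_ap σ x i v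
    unfold ax
    exact decide_eq_decide.2 ((hE i).equi p x σ v)
  dact σ _ z := dx_act σ z

variable {b : ℕ → ℕ → ℕ} (D : ℕ → List ℕ → RS a → ℕ → ℕ → Prop)
  (E : (k j : ℕ) → List ℕ → RS a → (Fin (b k j) → ℕ) → Prop)

/-- the class -/
def FX (x : RS a) : Prop := ∃ k p, FC (D k p x) (ax (E k) p x) ∧
  ∀ i v, x i v = true → ∃ J, Imp (D k p x) (ax (E k) p x) x i v J

/-- a larger class -/
def FW (x : RS a) : Prop := ∃ k, PExp (fun p (x : RS a) => cdd (D k p x) (ax (E k) p x) x)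
  (fun _ => dx a (b k)) NCB x

variable {D E}

theorem vcu_FW (hD : ∀ k, DefB (D k)) (hE : ∀ k j, DefN (E k j)) : VCu (FW D E) :=
  cun_vcu _ (fun k => pexp_vcu (pcanon_cod (hD k) (hE k)) ncb_vcu ncb_coan ncb_inv)
    (fun k => pexp_coan (pcanon_cod (hD k) (hE k)) ncb_coan)
    (fun k => pexp_inv (pcanon_cod (hD k) (hE k)) ncb_inv)

theorem fx_sub {x : RS a} (h : FX D E x) : FW D E x := by
  obtain ⟨k, p, h1, h2⟩ := h
  exact ⟨k, p, ncb_cod h1, dx_cod h1 h2⟩

/-- **The dichotomy.** -/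
theorem vc_FX (hD : ∀ k, DefB (D k)) (hE : ∀ k j, DefN (E k j)) : VC (FX D E) := by
  intro B hB hi hV
  exact vs_plain _ _ (vcu_FW hD hE) B hB hi fun x hx => fx_sub (hV x hx)

end main

end Pool.Agent.U97.NC
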