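import Pool.Agent.U97.NC.Vau
import Pool.Agent.U97.NC.Comb

set_option autoImplicit false

/-!
Structures whose crossing components are finite are coded by non-crossing binary relations.
-/

namespace Pool.Agent.U97.NC

open Set MeasureTheory Relation
open Pool.Agent.H533R2.VO (RS RIso VC Dich)
open Pool.Agent.H533R2.VS
open Pool.Agent.N481.VT (SLO)
open Pool.Agent.W889.VC (BP cont_of_meas)

/-! ### the combinatorial notions for a binary relation on `ℕ` -/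

section rel

variable (lt : ℕ → ℕ → Prop)

/-- crossing finite sets -/
def Cr' (S T : Finset ℕ) : Prop := ∃ a b c d, lt a b ∧ lt b c ∧ lt c d ∧
  ((a ∈ S ∧ c ∈ S ∧ b ∈ T ∧ d ∈ T) ∨ (a ∈ T ∧ c ∈ T ∧ b ∈ S ∧ d ∈ S))

variable {a : ℕ → ℕ} (x : RS a)

/-- the truth value depends only on the order of the entries -/
def OD' (i : ℕ) : Prop := ∀ v w : Fin (a i) → ℕ, (∀ s t, lt (v s) (v t) ↔ lt (w s) (w t)) →
  (x i v = true ↔ x i w = true)

/-- the supports of the tuples in the other relations -/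
def Su (S : Finset ℕ) : Prop := ∃ i, ∃ v : Fin (a i) → ℕ, ¬ OD' lt x i ∧ x i v = true ∧
  ∀ u, u ∈ S ↔ ∃ j, v j = u

/-- crossing supports -/
def Ad (S T : Finset ℕ) : Prop := Su lt x S ∧ Su lt x T ∧ Cr' lt S T

/-- linked supports -/
def Li (S T : Finset ℕ) : Prop := ReflTransGen (Ad lt x) S T

/-- the union of a component -/
def Wi (S : Finset ℕ) (p : ℕ) : Prop := ∃ T, Su lt x T ∧ Li lt x S T ∧ p ∈ T

/-- increasing enumerations of unions of components -/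
def Po (n : ℕ) (w : Fin (n + 1) → ℕ) : Prop := (∀ s t, s < t → lt (w s) (w t)) ∧
  ∃ S, Su lt x S ∧ ∀ u, (∃ j, w j = u) ↔ Wi lt x S u

/-- the class -/
structure FC : Prop where
  lin : SLO lt
  fin : ∀ S, Su lt x S → {T | Li lt x S T}.Finite

variable {x}

theorem cr_iff (h : SLO lt) (S T : Finset ℕ) :
    Cr' lt S T ↔ @Cr ℕ (lo h) (S : Set ℕ) (T : Set ℕ) := Iff.rfl

theorem li_iff (h : SLO lt) (S T : Finset ℕ) :
    Li lt x S T ↔ @Lk ℕ (lo h) (Su lt x) S T := Iff.rfl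

theorem po_iff (h : SLO lt) (n : ℕ) (w : Fin (n + 1) → ℕ) :
    Po lt x n w ↔ @Poly ℕ (lo h) (Su lt x) (n + 1) w := by
  constructor
  · rintro ⟨h1, S, h2, h3⟩
    exact ⟨fun s t hst => h1 s t hst, S, h2, Set.ext fun u => h3 u⟩
  · rintro ⟨h1, S, h2, h3⟩
    exact ⟨fun s t hst => h1 hst, S, h2, fun u => Set.ext_iff.1 h3 u⟩

end rel

/-! ### labels -/

/-- labels: order types for the relations determined by the order, sides, and facts -/
abbrev Lb (a : ℕ → ℕ) : Type := (Σ i : ℕ, (Fin (a i) → Fin (a i) → Bool)) ⊕ (ℕ × ℕ) ⊕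
  (Σ i : ℕ, Σ n : ℕ, (Fin (a i) → Fin (n + 1)))

section lab

variable {a : ℕ → ℕ} (lt : ℕ → ℕ → Prop) (x : RS a)

/-- the relation with a given label -/
def LR : Lb a → ℕ → ℕ → Prop
  | Sum.inl ⟨i, o⟩, u, u' => u = u' ∧ OD' lt x i ∧ ∃ v : Fin (a i) → ℕ,
      (∀ s t, lt (v s) (v t) ↔ o s t = true) ∧ x i v = true
  | Sum.inr (Sum.inl (n, k)), u, u' => ∃ w : Fin (n + 1) → ℕ, Po lt x n w ∧
      ∃ j : Fin n, j.val = k ∧ w j.castSucc = u ∧ w j.succ = u'
  | Sum.inr (Sum.inr ⟨i, n, t⟩), u, u' => ∃ w : Fin (n + 1) → ℕ, Po lt x n w ∧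
      w 0 = u ∧ w (Fin.last n) = u' ∧ x i (fun s => w (t s)) = true

/-- decoding, from an order and labelled relations -/
def Dd (lt : ℕ → ℕ → Prop) (L : Lb a → ℕ → ℕ → Prop) (i : ℕ) (v : Fin (a i) → ℕ) : Prop :=
  (∃ u, ∃ o : Fin (a i) → Fin (a i) → Bool, (∀ s t, lt (v s) (v t) ↔ o s t = true) ∧
    L (Sum.inl ⟨i, o⟩) u u) ∨
  ∃ n, ∃ w : Fin (n + 1) → ℕ, ∃ t : Fin (a i) → Fin (n + 1), (∀ s s', s < s' → lt (w s) (w s')) ∧
    (∀ s, v s = w (t s)) ∧ L (Sum.inr (Sum.inr ⟨i, n, t⟩)) (w 0) (w (Fin.last n)) ∧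
    ∀ k : Fin n, L (Sum.inr (Sum.inl (n, k.val))) (w k.castSucc) (w k.succ)

variable {lt x}

theorem Po.lt' {n : ℕ} {w : Fin (n + 1) → ℕ} (h : Po lt x n w) {s t : Fin (n + 1)} (hst : s < t) :
    lt (w s) (w t) := h.1 s t hst

/-- the union of a finite component is enumerated -/
theorem FC.enum (h : FC lt x) {S : Finset ℕ} (hS : Su lt x S) (hne : S.Nonempty) :
    ∃ n, ∃ w : Fin (n + 1) → ℕ, (∀ s t, s < t → lt (w s) (w t)) ∧
      ∀ u, (∃ j, w j = u) ↔ Wi lt x S u := by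
  classical
  have hfin : {p | Wi lt x S p}.Finite := by
    have h1 : {p | Wi lt x S p} ⊆ ⋃ T ∈ {T | Li lt x S T}, (T : Set ℕ) := by
      rintro p ⟨T, h2, h3, h4⟩
      exact mem_iUnion₂.2 ⟨T, h3, h4⟩
    exact ((h.fin S hS).biUnion fun T _ => T.finite_toSet).subset h1
  obtain ⟨W', hW'⟩ : ∃ W' : Finset ℕ, ∀ p, p ∈ W' ↔ Wi lt x S p :=
    ⟨hfin.toFinset, fun p => by rw [Set.Finite.mem_toFinset]; exact Iff.rfl⟩
  obtain ⟨p, hp⟩ := hne
  have hpW : p ∈ W' := (hW' p).2 ⟨S, hS, ReflTransGen.refl, hp⟩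
  obtain ⟨n, w, h1, h2⟩ := @enum_gen ℕ (lo h.lin) W' ⟨p, hpW⟩
  exact ⟨n, w, fun s t hst => h1 hst, fun u => (h2 u).trans (hW' u)⟩

/-- decoding works -/
theorem FC.dec (h : FC lt x) (i : ℕ) (v : Fin (a i) → ℕ) :
    Dd lt (LR lt x) i v ↔ x i v = true := by
  classical
  constructor
  · rintro (⟨u, o, h1, -, h2, v', h3, h4⟩ | ⟨n, w, t, h1, h2, ⟨w', h3, h4, h5, h6⟩, h7⟩)
    · refine (h2 v' v fun s t => ?_).1 h4
      rw [h3, h1]
    · have h8 : w' = w := by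
        refine @Poly.det ℕ (lo h.lin) (Su lt x) n w w' (fun s s' hs => h1 s s' hs)
          ((po_iff lt h.lin n w').1 h3) h4 h5 fun k => ?_
        obtain ⟨w'', h9, j, h10, h11, h12⟩ := h7 k
        have : j = k := Fin.ext h10
        subst this
        exact ⟨w'', (po_iff lt h.lin n w'').1 h9, h11, h12⟩
      subst h8
      have h9 : v = fun s => w' (t s) := funext h2
      rw [h9]
      exact h6
  · intro hv
    by_cases hod : OD' lt x i
    · left
      refine ⟨0, fun s t => decide (lt (v s) (v t)), fun s t => ?_, rfl, hod, v, fun s t => ?_, hv⟩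
      · rw [decide_eq_true_eq]
      · rw [decide_eq_true_eq]
    · right
      have hS : Su lt x (Finset.univ.image v) :=
        ⟨i, v, hod, hv, fun u => by
          rw [Finset.mem_image]
          exact ⟨fun ⟨j, _, hj⟩ => ⟨j, hj⟩, fun ⟨j, hj⟩ => ⟨j, Finset.mem_univ j, hj⟩⟩⟩
      have hne : (Finset.univ.image v).Nonempty := by
        have hpos : 0 < a i := by
          by_contra h0
          apply hod
          intro v1 v2 _
          have : v1 = v2 := by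
            funext j
            exact absurd j.2 (by omega)
          rw [this]
        exact ⟨v ⟨0, hpos⟩, Finset.mem_image_of_mem v (Finset.mem_univ _)⟩
      obtain ⟨n, w, h1, h2⟩ := h.enum hS hne
      have hex : ∀ s, ∃ j, w j = v s := fun s => by
        rw [h2]
        exact ⟨_, hS, ReflTransGen.refl, Finset.mem_image_of_mem v (Finset.mem_univ s)⟩
      choose t ht using hex
      have hpo : Po lt x n w := ⟨h1, _, hS, h2⟩
      refine ⟨n, w, t, h1, fun s => (ht s).symm, ⟨w, hpo, rfl, rfl, ?_⟩,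
        fun k => ⟨w, hpo, k, rfl, rfl, rfl⟩⟩
      have h9 : (fun s => w (t s)) = v := funext ht
      rw [h9]
      exact hv

/-- arcs are sides or hulls -/
theorem arc_of {l : Lb a} {u u' : ℕ} (h : LR lt x l u u') (hne : u ≠ u') :
    ∃ n, ∃ w : Fin (n + 1) → ℕ, Po lt x n w ∧
      ((∃ j : Fin n, w j.castSucc = u ∧ w j.succ = u') ∨ (w 0 = u ∧ w (Fin.last n) = u')) := by
  rcases l with ⟨i, o⟩ | ⟨n, k⟩ | ⟨i, n, t⟩
  · exact absurd h.1 hne
  · obtain ⟨w, h1, j, -, h2, h3⟩ := h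
    exact ⟨n, w, h1, Or.inl ⟨j, h2, h3⟩⟩
  · obtain ⟨w, h1, h2, h3, -⟩ := h
    exact ⟨n, w, h1, Or.inr ⟨h2, h3⟩⟩

/-- arcs do not cross -/
theorem arcs_nc (h : FC lt x) {l l' : Lb a} {u v u' v' : ℕ} (h1 : LR lt x l u v ∨ LR lt x l v u)
    (h2 : LR lt x l' u' v' ∨ LR lt x l' v' u') (h3 : lt u u') (h4 : lt u' v) : ¬ lt v v' := by
  intro h5
  have huv : lt u v := h.lin.tr _ _ _ h3 h4
  have huv' : lt u' v' := h.lin.tr _ _ _ h4 h5
  have key : ∀ (l : Lb a) (u v : ℕ), lt u v → (LR lt x l u v ∨ LR lt x l v u) →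
      ∃ n, ∃ w : Fin (n + 1) → ℕ, Po lt x n w ∧
      ((∃ j : Fin n, w j.castSucc = u ∧ w j.succ = v) ∨ (w 0 = u ∧ w (Fin.last n) = v)) := by
    intro l u v huv h1
    have hne : u ≠ v := by
      rintro rfl
      exact h.lin.irr _ huv
    rcases h1 with h1 | h1
    · exact arc_of h1 hne
    · exfalso
      obtain ⟨n, w, h6, ⟨j, h7, h8⟩ | ⟨h7, h8⟩⟩ := arc_of h1 hne.symm
      · have := h6.lt' (Fin.castSucc_lt_succ (i := j))
        rw [h7, h8] at this
        exact h.lin.irr _ (h.lin.tr _ _ _ huv this)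
      · rcases Nat.eq_zero_or_pos n with rfl | hn
        · exact hne (h8.symm.trans h7)
        · have h9 : (0 : Fin (n + 1)) < Fin.last n := by
            rw [Fin.lt_def]
            exact hn
          have := h6.lt' h9
          rw [h7, h8] at this
          exact h.lin.irr _ (h.lin.tr _ _ _ huv this)
  obtain ⟨n, w, p1, q1⟩ := key l u v huv h1
  obtain ⟨n', w', p2', q2⟩ := key l' u' v' huv' h2
  have hu : u ∈ range w ∧ v ∈ range w := by
    rcases q1 with ⟨j, h6, h7⟩ | ⟨h6, h7⟩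
    · exact ⟨⟨_, h6⟩, ⟨_, h7⟩⟩
    · exact ⟨⟨_, h6⟩, ⟨_, h7⟩⟩
  have hu' : u' ∈ range w' ∧ v' ∈ range w' := by
    rcases q2 with ⟨j, h6, h7⟩ | ⟨h6, h7⟩
    · exact ⟨⟨_, h6⟩, ⟨_, h7⟩⟩
    · exact ⟨⟨_, h6⟩, ⟨_, h7⟩⟩
  rcases @Poly.cr ℕ (lo h.lin) (Su lt x) _ _ w w' ((po_iff lt h.lin n w).1 p1)
    ((po_iff lt h.lin n' w').1 p2') with hr | hr
  · rw [← hr] at hu'
    rcases q1 with ⟨j, h6, h7⟩ | ⟨h6, h7⟩
    · subst h6 h7
      exact @no_gap ℕ (lo h.lin) n w ((po_iff lt h.lin n w).1 p1).1 j u' h3 h4 hu'.1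
    · obtain ⟨j, hj⟩ := hu'.2
      rcases eq_or_lt_of_le (Fin.le_last j) with h8 | h8
      · rw [h8, h7] at hj
        rw [hj] at h5
        exact h.lin.irr _ h5
      · have h9 := p1.lt' h8
        rw [hj, h7] at h9
        exact h.lin.irr _ (h.lin.tr _ _ _ h5 h9)
  · exact hr ⟨u, u', v, v', h3, h4, h5, Or.inl ⟨hu.1, hu.2, hu'.1, hu'.2⟩⟩

end lab

end Pool.Agent.U97.NC
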