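import Pool.Agent.U97.NC.Rig

set_option autoImplicit false

/-!
Reading off the structure from its code is measurable.
-/

namespace Pool.Agent.U97.NC

open Set MeasureTheory
open Pool.Agent.H533R2.VO (RS RIso VC Dich)
open Pool.Agent.H533R2.VS
open Pool.Agent.N481.VT (SLO)
open Pool.Agent.W889.VC (BP)

/-- `m` is the point number `k` -/
def Nth (y : US b2) (k m : ℕ) : Prop :=
  yP y m ∧ ∃ s : Finset ℕ, s.card = k ∧ ∀ u, u ∈ s ↔ u < m ∧ yP y u

open Classical in
/-- the structure read off from the code -/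
noncomputable def read (y : US b2) : US b2 :=
  (fun i v => decide (∃ m n, Nth y (v 0) m ∧ Nth y (v 1) n ∧
      ((i = 0 ∧ yL y m n) ∨ (i ≠ 0 ∧ yR y (i - 1) m n))),
   fun i k => decide (∃ m, Nth y k m ∧ yU y (3 * i + 1) m))

theorem nth_uniq {y : US b2} {k m m' : ℕ} (h : Nth y k m) (h' : Nth y k m') : m = m' := by
  obtain ⟨h1, s, h2, h3⟩ := h
  obtain ⟨h1', s', h2', h3'⟩ := h'
  by_contra hne
  rcases Nat.lt_or_gt_of_ne hne with hlt | hlt
  · have hss : s ⊂ s' := by
      refine Finset.ssubset_iff_subset_ne.2 ⟨fun u hu => ?_, ?_⟩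
      · rw [h3']
        have := (h3 u).1 hu
        exact ⟨by omega, this.2⟩
      · intro e
        have h4 : m ∈ s' := (h3' m).2 ⟨hlt, h1⟩
        rw [← e, h3] at h4
        exact lt_irrefl _ h4.1
    have := Finset.card_lt_card hss
    omega
  · have hss : s' ⊂ s := by
      refine Finset.ssubset_iff_subset_ne.2 ⟨fun u hu => ?_, ?_⟩
      · rw [h3]
        have := (h3' u).1 hu
        exact ⟨by omega, this.2⟩
      · intro e
        have h4 : m' ∈ s := (h3 m').2 ⟨hlt, h1'⟩
        rw [← e, h3'] at h4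
        exact lt_irrefl _ h4.1
    have := Finset.card_lt_card hss
    omega

theorem nth_inj {y : US b2} {k k' m : ℕ} (h : Nth y k m) (h' : Nth y k' m) : k = k' := by
  obtain ⟨h1, s, h2, h3⟩ := h
  obtain ⟨h1', s', h2', h3'⟩ := h'
  have e : s = s' := by
    ext u
    rw [h3, h3']
  rw [← h2, ← h2', e]

open Classical in
theorem nth_of {y : US b2} {m : ℕ} (h : yP y m) : ∃ k, Nth y k m :=
  ⟨_, h, (Finset.range m).filter (yP y), rfl, fun u => by
    rw [Finset.mem_filter, Finset.mem_range]⟩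

open Classical in
theorem nth_ex {y : US b2} (hy : ∀ m, ∃ n, m ≤ n ∧ yP y n) (k : ℕ) : ∃ m, Nth y k m := by
  have hinf : {n | yP y n}.Infinite := by
    rw [Set.infinite_iff_exists_gt]
    intro a
    obtain ⟨n, h1, h2⟩ := hy (a + 1)
    exact ⟨n, h2, by omega⟩
  refine ⟨Nat.nth (yP y) k, Nat.nth_mem_of_infinite hinf k,
    (Finset.range (Nat.nth (yP y) k)).filter (yP y), ?_, fun u => by
      rw [Finset.mem_filter, Finset.mem_range]⟩
  rw [← Nat.count_eq_card_filter_range]
  exact Nat.count_nth_of_infinite hinf k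

/-- the structure read off is coded -/
theorem coded_read {y : US b2} (hy : ∀ m, ∃ n, m ≤ n ∧ yP y n) : ∃ κ, Coded (read y) y κ := by
  classical
  choose κ hκ using nth_ex hy
  refine ⟨κ, fun k l h => ?_, fun n => ⟨fun h => ?_, ?_⟩, fun k l => ?_, fun i k => ?_,
    fun i k l => ?_⟩
  · have h1 := hκ k
    rw [h] at h1
    exact nth_inj h1 (hκ l)
  · obtain ⟨k, hk⟩ := nth_of h
    exact ⟨k, nth_uniq (hκ k) hk⟩
  · rintro ⟨k, rfl⟩
    exact (hκ k).1
  · unfold rl read
    simp only [decide_eq_true_eq]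
    constructor
    · rintro ⟨m, n, h1, h2, ⟨-, h3⟩ | ⟨h3, -⟩⟩
      · rw [nth_uniq (hκ k) h1, nth_uniq (hκ l) h2]
        exact h3
      · exact absurd rfl h3
    · intro h
      exact ⟨κ k, κ l, hκ k, hκ l, Or.inl ⟨trivial, h⟩⟩
  · unfold read
    simp only [decide_eq_true_eq]
    constructor
    · rintro ⟨m, h1, h2⟩
      rw [nth_uniq (hκ k) h1]
      exact h2
    · intro h
      exact ⟨κ k, hκ k, h⟩
  · unfold rl read
    simp only [decide_eq_true_eq]
    constructor
    · rintro ⟨m, n, h1, h2, ⟨h3, -⟩ | ⟨-, h3⟩⟩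
      · exact absurd h3 (Nat.succ_ne_zero i)
      · rw [nth_uniq (hκ k) h1, nth_uniq (hκ l) h2]
        exact h3
    · intro h
      exact ⟨κ k, κ l, hκ k, hκ l, Or.inr ⟨Nat.succ_ne_zero i, h⟩⟩

/-! ### measurability -/

theorem bp_rel (i : ℕ) (v : Fin (b2 i) → ℕ) : BP (fun y : US b2 => y.1 i v = true) := by
  have h : Measurable (fun y : US b2 => y.1 i v) :=
    (measurable_pi_apply v).comp ((measurable_pi_apply i).comp measurable_fst)
  exact h (measurableSet_singleton true)

theorem bp_yU (i n : ℕ) : BP (fun y : US b2 => yU y i n) := by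
  have h : Measurable (fun y : US b2 => y.2 i n) :=
    (measurable_pi_apply n).comp ((measurable_pi_apply i).comp measurable_snd)
  exact h (measurableSet_singleton true)

theorem bp_rl (i m n : ℕ) : BP (fun y : US b2 => rl y.1 i m n) := bp_rel i _

theorem bp_yP (n : ℕ) : BP (fun y : US b2 => yP y n) := bp_yU 0 n

theorem bp_yL (m n : ℕ) : BP (fun y : US b2 => yL y m n) := bp_rl 1 m n

theorem bp_yI (m n : ℕ) : BP (fun y : US b2 => yI y m n) := bp_rl 0 m n

theorem bp_yl (m n : ℕ) : BP (fun y : US b2 => yl y m n) := (BP.const _).or (bp_yL m n)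

theorem bp_yE (n a b : ℕ) : BP (fun y : US b2 => yE y n a b) := by
  unfold yE Ep
  exact (bp_yP a).and ((bp_yP b).and (((bp_yP n).and ((BP.const _).and (BP.const _))).or
    ((bp_yP n).not.and ((bp_yL a b).and
      ((BP.all fun z => (bp_yP z).imp ((bp_yL z n).iff ((BP.const _).or (bp_yL z a)))).and
      (BP.all fun z => (bp_yP z).imp ((bp_yL n z).iff ((BP.const _).or (bp_yL b z)))))))))

theorem bp_yR (i m n : ℕ) : BP (fun y : US b2 => yR y i m n) := by
  unfold yR
  exact ((BP.const _).and (bp_yU _ _)).or (BP.ex fun e => (bp_yP e).not.and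
    (((bp_yE e m n).and (bp_yU _ _)).or ((bp_yE e n m).and (bp_yU _ _))))

theorem bp_nth (k m : ℕ) : BP (fun y : US b2 => Nth y k m) := by
  unfold Nth
  exact (bp_yP m).and (BP.ex fun s : Finset ℕ => (BP.const _).and
    (BP.all fun u => (BP.const _).iff ((BP.const _).and (bp_yP u))))

theorem meas_read : Measurable read := by
  refine Measurable.prodMk ?_ ?_
  · refine measurable_pi_iff.2 fun i => measurable_pi_iff.2 fun v => measurable_to_bool ?_
    have h : BP (fun y : US b2 => ∃ m n, Nth y (v 0) m ∧ Nth y (v 1) n ∧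
        ((i = 0 ∧ yL y m n) ∨ (i ≠ 0 ∧ yR y (i - 1) m n))) :=
      BP.ex fun m => BP.ex fun n => (bp_nth _ m).and ((bp_nth _ n).and
        (((BP.const _).and (bp_yL m n)).or ((BP.const _).and (bp_yR _ m n))))
    refine (congrArg MeasurableSet (Set.ext fun y => ?_)).mp h
    simp
  · refine measurable_pi_iff.2 fun i => measurable_pi_iff.2 fun k => measurable_to_bool ?_
    have h : BP (fun y : US b2 => ∃ m, Nth y k m ∧ yU y (3 * i + 1) m) :=
      BP.ex fun m => (bp_nth _ m).and (bp_yU _ _)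
    refine (congrArg MeasurableSet (Set.ext fun y => ?_)).mp h
    simp

theorem bp_good : BP Good := by
  have h : BP (fun y : US b2 =>
      (∀ m, ∃ n, m ≤ n ∧ yP y n) ∧
      (∀ m, yP y m → ¬ yL y m m) ∧
      (∀ m n k, yP y m → yP y n → yP y k → yL y m n → yL y n k → yL y m k) ∧
      (∀ m n, yP y m → yP y n → m = n ∨ yL y m n ∨ yL y n m) ∧
      (∀ n, ∃ a b, yE y n a b) ∧
      (∀ m n a b c d, yE y m a b → yE y n c d → (yL y m n ↔ m ≠ n ∧ yl y b c)) ∧
      (∀ m n a b c d, yE y m a b → yE y n c d → (yI y m n ↔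
        m ≠ n ∧ ¬ yP y n ∧ yl y c a ∧ yl y b d ∧ ¬ yl y b c ∧ ¬ yl y d a)) ∧
      (∀ m n a b, ¬ yP y m → ¬ yP y n → yE y m a b → yE y n a b → m = n) ∧
      (∀ n, ¬ yP y n → ∃ i, yU y (3 * i + 2) n ∨ yU y (3 * i + 3) n) ∧
      (∀ n i, ¬ yP y n → ¬ yU y (3 * i + 1) n) ∧
      (∀ n i, yP y n → ¬ yU y (3 * i + 3) n) ∧
      (∀ i, ∀ v : Fin (b2 (i + 2)) → ℕ, ¬ y.1 (i + 2) v = true)) := by
    refine (BP.all fun m => BP.ex fun n => (BP.const _).and (bp_yP n)).and ?_
    refine (BP.all fun m => (bp_yP m).imp (bp_yL m m).not).and ?_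
    refine (BP.all fun m => BP.all fun n => BP.all fun k => (bp_yP m).imp ((bp_yP n).imp
      ((bp_yP k).imp ((bp_yL m n).imp ((bp_yL n k).imp (bp_yL m k)))))).and ?_
    refine (BP.all fun m => BP.all fun n => (bp_yP m).imp ((bp_yP n).imp
      ((BP.const _).or ((bp_yL m n).or (bp_yL n m))))).and ?_
    refine (BP.all fun n => BP.ex fun a => BP.ex fun b => bp_yE n a b).and ?_
    refine (BP.all fun m => BP.all fun n => BP.all fun a => BP.all fun b => BP.all fun c =>
      BP.all fun d => (bp_yE m a b).imp ((bp_yE n c d).imp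
        ((bp_yL m n).iff ((BP.const _).and (bp_yl b c))))).and ?_
    refine (BP.all fun m => BP.all fun n => BP.all fun a => BP.all fun b => BP.all fun c =>
      BP.all fun d => (bp_yE m a b).imp ((bp_yE n c d).imp
        ((bp_yI m n).iff ((BP.const _).and ((bp_yP n).not.and ((bp_yl c a).and
          ((bp_yl b d).and ((bp_yl b c).not.and (bp_yl d a).not)))))))).and ?_
    refine (BP.all fun m => BP.all fun n => BP.all fun a => BP.all fun b => (bp_yP m).not.imp
      ((bp_yP n).not.imp ((bp_yE m a b).imp ((bp_yE n a b).imp (BP.const _))))).and ?_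
    refine (BP.all fun n => (bp_yP n).not.imp (BP.ex fun i =>
      (bp_yU _ n).or (bp_yU _ n))).and ?_
    refine (BP.all fun n => BP.all fun i => (bp_yP n).not.imp (bp_yU _ n).not).and ?_
    refine (BP.all fun n => BP.all fun i => (bp_yP n).imp (bp_yU _ n).not).and ?_
    exact BP.all fun i => BP.all fun v => (bp_rel (i + 2) v).not
  refine h.congr fun y => ⟨?_, ?_⟩
  · rintro ⟨h1, h2, h3, h4, h5, h6, h7, h8, h9, h10, h11, h12⟩
    exact ⟨h1, ⟨h2, h3, h4⟩, h5, h6, h7, h8, h9, h10, h11, fun i v => by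
      simpa using h12 i v⟩
  · rintro ⟨h1, ⟨h2, h3, h4⟩, h5, h6, h7, h8, h9, h10, h11, h12⟩
    exact ⟨h1, h2, h3, h4, h5, h6, h7, h8, h9, h10, h11, fun i v => by
      rw [h12 i v]
      exact Bool.false_ne_true⟩

end Pool.Agent.U97.NC
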