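import Pool.Agent.U97.NC.Code

set_option autoImplicit false

/-!
A good code is determined by the structure.
-/

namespace Pool.Agent.U97.NC

open Set MeasureTheory
open Pool.Agent.H533R2.VO (RS RIso VC Dich)
open Pool.Agent.H533R2.VS
open Pool.Agent.N481.VT (SLO)

theorem Good.pt {y : US b2} (_hg : Good y) {n : ℕ} (hn : yP y n) : yE y n n n :=
  ⟨hn, hn, Or.inl ⟨hn, rfl, rfl⟩⟩

/-- the endpoints are numbered -/
theorem Coded.ends {x y : US b2} {κ : ℕ → ℕ} (h : Coded x y κ) (hg : Good y) (n : ℕ) :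
    ∃ k l, yE y n (κ k) (κ l) := by
  obtain ⟨a, b, hab⟩ := hg.ep n
  obtain ⟨k, rfl⟩ := (h.rng a).1 hab.1
  obtain ⟨l, rfl⟩ := (h.rng b).1 hab.2.1
  exact ⟨k, l, hab⟩

theorem Coded.uni {x y : US b2} {κ : ℕ → ℕ} (h : Coded x y κ) (hg : Good y) {n k l k' l' : ℕ}
    (h1 : yE y n (κ k) (κ l)) (h2 : yE y n (κ k') (κ l')) : k = k' ∧ l = l' := by
  obtain ⟨e1, e2⟩ := Ep.uniq hg.po h1 h2
  exact ⟨h.inj e1, h.inj e2⟩

theorem Coded.arc_lt {x y : US b2} {κ : ℕ → ℕ} (h : Coded x y κ) {n k l : ℕ}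
    (hn : ¬ yP y n) (h1 : yE y n (κ k) (κ l)) : rl x.1 0 k l := by
  rw [h.lt]
  rcases h1.2.2 with h2 | h2
  · exact absurd h2.1 hn
  · exact h2.2.1

theorem Coded.asymm {x y : US b2} {κ : ℕ → ℕ} (h : Coded x y κ) (hg : Good y) {k l : ℕ}
    (h1 : rl x.1 0 k l) (h2 : rl x.1 0 l k) : False := by
  rw [h.lt] at h1 h2
  have pk := (h.rng _).2 ⟨k, rfl⟩
  have pl := (h.rng _).2 ⟨l, rfl⟩
  exact hg.po.irr _ pk (hg.po.tr _ _ _ pk pl pk h1 h2)

/-- the labels of an arc -/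
theorem Coded.lab2 {x y : US b2} {κ : ℕ → ℕ} (h : Coded x y κ) (hg : Good y) {n k l : ℕ}
    (hn : ¬ yP y n) (h1 : yE y n (κ k) (κ l)) (i : ℕ) :
    yU y (3 * i + 2) n ↔ rl x.1 (i + 1) k l := by
  rw [h.rel]
  have hlt := h.arc_lt hn h1
  constructor
  · intro h2
    exact Or.inr ⟨n, hn, Or.inl ⟨h1, h2⟩⟩
  · rintro (⟨h2, h3⟩ | ⟨e, he, ⟨h2, h3⟩ | ⟨h2, h3⟩⟩)
    · have := h.inj h2
      subst this
      exact (h.asymm hg hlt hlt).elim
    · rw [hg.inj n e _ _ hn he h1 h2]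
      exact h3
    · exact (h.asymm hg hlt (h.arc_lt he h2)).elim

theorem Coded.lab3 {x y : US b2} {κ : ℕ → ℕ} (h : Coded x y κ) (hg : Good y) {n k l : ℕ}
    (hn : ¬ yP y n) (h1 : yE y n (κ k) (κ l)) (i : ℕ) :
    yU y (3 * i + 3) n ↔ rl x.1 (i + 1) l k := by
  rw [h.rel]
  have hlt := h.arc_lt hn h1
  constructor
  · intro h2
    exact Or.inr ⟨n, hn, Or.inr ⟨h1, h2⟩⟩
  · rintro (⟨h2, h3⟩ | ⟨e, he, ⟨h2, h3⟩ | ⟨h2, h3⟩⟩)
    · have := h.inj h2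
      subst this
      exact (h.asymm hg hlt hlt).elim
    · exact (h.asymm hg hlt (h.arc_lt he h2)).elim
    · rw [hg.inj n e _ _ hn he h1 h2]
      exact h3

/-- the labels of a point -/
theorem Coded.lab2p {x y : US b2} {κ : ℕ → ℕ} (h : Coded x y κ) (hg : Good y) (i k : ℕ) :
    yU y (3 * i + 2) (κ k) ↔ rl x.1 (i + 1) k k := by
  rw [h.rel]
  constructor
  · intro h2
    exact Or.inl ⟨rfl, h2⟩
  · rintro (⟨h2, h3⟩ | ⟨e, he, ⟨h2, h3⟩ | ⟨h2, h3⟩⟩)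
    · exact h3
    · exact (h.asymm hg (h.arc_lt he h2) (h.arc_lt he h2)).elim
    · exact (h.asymm hg (h.arc_lt he h2) (h.arc_lt he h2)).elim

/-- corresponding elements of two codes -/
def Cor (y z : US b2) (κ κ' : ℕ → ℕ) (n n' : ℕ) : Prop :=
  (yP y n ↔ yP z n') ∧ ∃ k l, yE y n (κ k) (κ l) ∧ yE z n' (κ' k) (κ' l)

theorem Cor.symm {y z : US b2} {κ κ' : ℕ → ℕ} {n n' : ℕ} (h : Cor y z κ κ' n n') :
    Cor z y κ' κ n' n := by
  obtain ⟨h1, k, l, h2, h3⟩ := h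
  exact ⟨h1.symm, k, l, h3, h2⟩

theorem cor_ex {x y z : US b2} {κ κ' : ℕ → ℕ} (hy : Good y) (hz : Good z) (h : Coded x y κ)
    (h' : Coded x z κ') (n : ℕ) : ∃ n', Cor y z κ κ' n n' := by
  obtain ⟨k, l, hkl⟩ := h.ends hy n
  by_cases hn : yP y n
  · obtain ⟨m, hm⟩ := (h.rng n).1 hn
    have h1 : yE y n (κ m) (κ m) := by
      rw [hm]
      exact hy.pt hn
    have hp : yP z (κ' m) := (h'.rng _).2 ⟨m, rfl⟩
    exact ⟨κ' m, iff_of_true hn hp, m, m, h1, hz.pt hp⟩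
  · have hlt := h.arc_lt hn hkl
    have hex : ∃ n', ¬ yP z n' ∧ yE z n' (κ' k) (κ' l) := by
      obtain ⟨i, hi | hi⟩ := hy.lab n hn
      · rw [h.lab2 hy hn hkl, h'.rel] at hi
        rcases hi with ⟨h2, h3⟩ | ⟨e, he, ⟨h2, h3⟩ | ⟨h2, h3⟩⟩
        · have := h'.inj h2
          subst this
          exact (h.asymm hy hlt hlt).elim
        · exact ⟨e, he, h2⟩
        · exact (h.asymm hy hlt (h'.arc_lt he h2)).elim
      · rw [h.lab3 hy hn hkl, h'.rel] at hi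
        rcases hi with ⟨h2, h3⟩ | ⟨e, he, ⟨h2, h3⟩ | ⟨h2, h3⟩⟩
        · have := h'.inj h2
          subst this
          exact (h.asymm hy hlt hlt).elim
        · exact (h.asymm hy hlt (h'.arc_lt he h2)).elim
        · exact ⟨e, he, h2⟩
    obtain ⟨n', h1, h2⟩ := hex
    exact ⟨n', iff_of_false hn h1, k, l, hkl, h2⟩

theorem cor_uniq {x y z : US b2} {κ κ' : ℕ → ℕ} (hy : Good y) (hz : Good z) (h : Coded x y κ)
    {n n' n'' : ℕ} (h1 : Cor y z κ κ' n n') (h2 : Cor y z κ κ' n n'') : n' = n'' := by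
  obtain ⟨a1, k, l, a2, a3⟩ := h1
  obtain ⟨b1, k', l', b2, b3⟩ := h2
  obtain ⟨rfl, rfl⟩ := h.uni hy a2 b2
  by_cases hn : yP y n
  · have c1 := hz.pt (a1.1 hn)
    have c2 := hz.pt (b1.1 hn)
    rw [(Ep.uniq hz.po c1 a3).1, (Ep.uniq hz.po c2 b3).1]
  · exact hz.inj _ _ _ _ (fun h3 => hn (a1.2 h3)) (fun h3 => hn (b1.2 h3)) a3 b3

/-- two good codes of the same structure are isomorphic -/
theorem good_uniq {x y z : US b2} {κ κ' : ℕ → ℕ} (hy : Good y) (hz : Good z) (h : Coded x y κ)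
    (h' : Coded x z κ') : UIso y z := by
  choose f hf using cor_ex hy hz h h'
  choose g hg using cor_ex hz hy h' h
  let τ : Equiv.Perm ℕ :=
    { toFun := f
      invFun := g
      left_inv := fun n => cor_uniq hz hy h' (hg (f n)) (hf n).symm
      right_inv := fun n => cor_uniq hy hz h (hf (g n)) (hg n).symm }
  have hτ : ∀ n, Cor y z κ κ' n (τ n) := hf
  have hyl : ∀ k l, yl y (κ k) (κ l) ↔ yl z (κ' k) (κ' l) := by
    intro k l
    unfold yl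
    rw [← h.lt, ← h'.lt, h.inj.eq_iff, h'.inj.eq_iff]
  refine ⟨τ, isoBy_of (fun i m n => ?_) fun i u => ?_⟩
  · obtain ⟨a1, k, l, a2, a3⟩ := hτ m
    obtain ⟨b1, k', l', b2, b3⟩ := hτ n
    rcases i with _ | _ | i
    · show yI z (τ m) (τ n) ↔ yI y m n
      rw [hy.inn _ _ _ _ _ _ a2 b2, hz.inn _ _ _ _ _ _ a3 b3, hyl, hyl, hyl, hyl, b1,
        τ.injective.ne_iff]
    · show yL z (τ m) (τ n) ↔ yL y m n
      rw [hy.lf _ _ _ _ _ _ a2 b2, hz.lf _ _ _ _ _ _ a3 b3, hyl, τ.injective.ne_iff]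
    · unfold rl
      rw [hy.rest, hz.rest]
  · obtain ⟨a1, k, l, a2, a3⟩ := hτ u
    rcases Nat.eq_zero_or_pos i with rfl | hi
    · exact a1.symm
    obtain ⟨j, hj⟩ : ∃ j, i = 3 * j + 1 ∨ i = 3 * j + 2 ∨ i = 3 * j + 3 := ⟨(i - 1) / 3, by omega⟩
    by_cases hn : yP y u
    · have c1 := hy.pt hn
      have c2 := hz.pt (a1.1 hn)
      have e1 := (Ep.uniq hy.po c1 a2).1
      have e2 := (Ep.uniq hz.po c2 a3).1
      rcases hj with rfl | rfl | rfl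
      · rw [e2, e1]
        exact (h'.un j k).symm.trans (h.un j k)
      · rw [e2, e1, h.lab2p hy, h'.lab2p hz]
      · exact iff_of_false (hz.lab3 _ _ (a1.1 hn)) (hy.lab3 _ _ hn)
    · have hn' : ¬ yP z (τ u) := fun h3 => hn (a1.2 h3)
      rcases hj with rfl | rfl | rfl
      · exact iff_of_false (hz.lab1 _ _ hn') (hy.lab1 _ _ hn)
      · rw [h.lab2 hy hn a2, h'.lab2 hz hn' a3]
      · rw [h.lab3 hy hn a2, h'.lab3 hz hn' a3]

/-- good codes are preserved by isomorphisms -/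
theorem Good.map {σ : Equiv.Perm ℕ} {y z : US b2} (hy : Good y) (hs : IsoBy σ y z) : Good z := by
  have hP : ∀ n, yP z n ↔ yP y (σ.symm n) := fun n => by
    rw [← hs.yP, σ.apply_symm_apply]
  have hL : ∀ m n, yL z m n ↔ yL y (σ.symm m) (σ.symm n) := fun m n => by
    rw [← hs.yL, σ.apply_symm_apply, σ.apply_symm_apply]
  have hI : ∀ m n, yI z m n ↔ yI y (σ.symm m) (σ.symm n) := fun m n => by
    rw [← hs.yI, σ.apply_symm_apply, σ.apply_symm_apply]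
  have hl : ∀ m n, yl z m n ↔ yl y (σ.symm m) (σ.symm n) := fun m n => by
    rw [← hs.yl, σ.apply_symm_apply, σ.apply_symm_apply]
  have hE : ∀ n a b, yE z n a b ↔ yE y (σ.symm n) (σ.symm a) (σ.symm b) :=
    Ep.symm_map σ hs.yP hs.yL
  have hU : ∀ i n, yU z i n ↔ yU y i (σ.symm n) := fun i n => by
    rw [← hs.un, σ.apply_symm_apply]
  refine ⟨fun m => ?_, ⟨fun m hm => ?_, fun m n k h1 h2 h3 => ?_, fun m n h1 h2 => ?_⟩,
    fun n => ?_, fun m n a b c d h1 h2 => ?_, fun m n a b c d h1 h2 => ?_,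
    fun m n a b h1 h2 h3 h4 => ?_, fun n h1 => ?_, fun n i h1 => ?_, fun n i h1 => ?_,
    fun i v => ?_⟩
  · by_contra hcon
    push Not at hcon
    have hfin : {n | yP y n}.Finite := by
      refine ((Set.finite_lt_nat m).preimage (f := σ) σ.injective.injOn).subset ?_
      intro n hn
      show σ n < m
      by_contra h1
      exact hcon (σ n) (by omega) ((hs.yP n).2 hn)
    have hinf : {n | yP y n}.Infinite := by
      rw [Set.infinite_iff_exists_gt]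
      intro a
      obtain ⟨n, h1, h2⟩ := hy.inf (a + 1)
      exact ⟨n, h2, by omega⟩
    exact hinf hfin
  · rw [hL]
    exact hy.po.irr _ ((hP m).1 hm)
  · rw [hL, hL, hL]
    exact hy.po.tr _ _ _ ((hP _).1 h1) ((hP _).1 h2) ((hP _).1 h3)
  · rw [hL, hL]
    rcases hy.po.tot _ _ ((hP _).1 h1) ((hP _).1 h2) with h3 | h3
    · exact Or.inl (σ.symm.injective h3)
    · exact Or.inr h3
  · obtain ⟨a, b, h1⟩ := hy.ep (σ.symm n)
    refine ⟨σ a, σ b, ?_⟩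
    rw [hE, σ.symm_apply_apply, σ.symm_apply_apply]
    exact h1
  · rw [hL, hl, hy.lf _ _ _ _ _ _ ((hE _ _ _).1 h1) ((hE _ _ _).1 h2), σ.symm.injective.ne_iff]
  · rw [hI, hl, hl, hl, hl, hP, hy.inn _ _ _ _ _ _ ((hE _ _ _).1 h1) ((hE _ _ _).1 h2),
      σ.symm.injective.ne_iff]
  · rw [hP] at h1 h2
    exact σ.symm.injective (hy.inj _ _ _ _ h1 h2 ((hE _ _ _).1 h3) ((hE _ _ _).1 h4))
  · rw [hP] at h1
    obtain ⟨i, hi⟩ := hy.lab _ h1
    exact ⟨i, by rw [hU, hU]; exact hi⟩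
  · rw [hP] at h1
    rw [hU]
    exact hy.lab1 _ _ h1
  · rw [hP] at h1
    rw [hU]
    exact hy.lab3 _ _ h1
  · have e : v = ⇑σ ∘ (⇑σ.symm ∘ v) := by
      funext j
      exact (σ.apply_symm_apply (v j)).symm
    rw [e, hs.1, hy.rest]

end Pool.Agent.U97.NC
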