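import Pool.Agent.U97.NC.Ex

set_option autoImplicit false

/-!
Vaught's conjecture for ordered structures with non-crossing binary relations.
-/

namespace Pool.Agent.U97.NC

open Set MeasureTheory
open Pool.Agent.H533R2.VO (RS RIso VC Dich)
open Pool.Agent.H533R2.VS
open Pool.Agent.N481.VT (SLO)
open Pool.Agent.W889.VC (BP cont_of_meas)
open Pool.Agent.TH425.FF (uiso_symm uiso_trans riso_of_uiso)

theorem ncb_inv : Inv NCB := by
  rintro x y ⟨σ, hσ⟩ h
  have hr : ∀ i m n, rl y i m n ↔ rl x i (σ.symm m) (σ.symm n) := by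
    intro i m n
    unfold rl
    rw [← hσ, ← nis_p2, σ.apply_symm_apply, σ.apply_symm_apply]
  have ha : ∀ m n, Arc y m n ↔ Arc x (σ.symm m) (σ.symm n) := by
    intro m n
    unfold Arc
    simp only [hr]
  refine ⟨⟨fun m => ?_, fun m n k h1 h2 => ?_, fun m n => ?_⟩, fun m n m' n' h1 h2 h3 h4 => ?_⟩
  · rw [hr]; exact h.lin.irr _
  · rw [hr] at h1 h2 ⊢
    exact h.lin.tr _ _ _ h1 h2
  · rw [hr, hr]
    rcases h.lin.tot (σ.symm m) (σ.symm n) with h1 | h1
    · exact Or.inl (σ.symm.injective h1)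
    · exact Or.inr h1
  · rw [ha] at h1 h2
    rw [hr] at h3 h4 ⊢
    exact h.nc _ _ _ _ h1 h2 h3 h4

theorem bp_rl' (i m n : ℕ) : BP (fun x : RS b2 => rl x i m n) := by
  have h : Measurable (fun x : RS b2 => x i (p2 m n)) :=
    (measurable_pi_apply _).comp (measurable_pi_apply i)
  exact h (measurableSet_singleton true)

theorem bp_arc (m n : ℕ) : BP (fun x : RS b2 => Arc x m n) :=
  (bp_rl' 0 m n).and (BP.ex fun i => (bp_rl' (i + 1) m n).or (bp_rl' (i + 1) n m))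

theorem bp_ncb : BP NCB := by
  have h : BP (fun x : RS b2 => (∀ m, ¬ rl x 0 m m) ∧
      (∀ m n k, rl x 0 m n → rl x 0 n k → rl x 0 m k) ∧
      (∀ m n, m = n ∨ rl x 0 m n ∨ rl x 0 n m) ∧
      ∀ m n m' n', Arc x m n → Arc x m' n' → rl x 0 m m' → rl x 0 m' n → ¬ rl x 0 n n') := by
    refine (BP.all fun m => (bp_rl' 0 m m).not).and ?_
    refine (BP.all fun m => BP.all fun n => BP.all fun k => (bp_rl' 0 m n).imp
      ((bp_rl' 0 n k).imp (bp_rl' 0 m k))).and ?_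
    refine (BP.all fun m => BP.all fun n => (BP.const _).or
      ((bp_rl' 0 m n).or (bp_rl' 0 n m))).and ?_
    exact BP.all fun m => BP.all fun n => BP.all fun m' => BP.all fun n' => (bp_arc m n).imp
      ((bp_arc m' n').imp ((bp_rl' 0 m m').imp ((bp_rl' 0 m' n).imp (bp_rl' 0 n n').not)))
  exact h.congr fun x => ⟨fun ⟨h1, h2, h3, h4⟩ => ⟨⟨h1, h2, h3⟩, h4⟩,
    fun ⟨⟨h1, h2, h3⟩, h4⟩ => ⟨h1, h2, h3, h4⟩⟩

theorem ncb_coan : Coan NCB := by
  have h1 : PolishSpace (RS b2) := kis_pRS b2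
  have h2 : BorelSpace ((i : ℕ) → (Fin (b2 i) → ℕ) → Bool) := inferInstance
  exact MeasurableSet.analyticSet bp_ncb.not

/-- **Vaught's conjecture for ordered structures with non-crossing binary relations, with unary
predicates.** -/
theorem ncb_vcu : VCu NCB := by
  intro B hB hinv hBV
  have b1 : BorelSpace ((i : ℕ) → (Fin (b2 i) → ℕ) → Bool) := inferInstance
  have b3' : BorelSpace (ℕ → ℕ → Bool) := inferInstance
  have s1 : SecondCountableTopology (US b2) := inferInstance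
  have b3 : BorelSpace (US b2) := inferInstance
  have key : ∀ y z, UIso y z → (Good y ∧ read y ∈ B) → (Good z ∧ read z ∈ B) := by
    rintro y z ⟨σ, hσ⟩ ⟨h1, h2⟩
    have h3 := h1.map (z := z) (σ := σ) hσ
    obtain ⟨κ, hκ⟩ := coded_read h1.inf
    obtain ⟨κ', hκ'⟩ := coded_read h3.inf
    exact ⟨h3, (hinv _ _ ((hκ.map (σ := σ) hσ).uniq hκ')).1 h2⟩
  rcases vs_dec b2 {y | Good y ∧ read y ∈ B} (bp_good.and (meas_read hB))
    (fun y z h => ⟨key y z h, key z y (uiso_symm h)⟩)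
    (fun y hy => by
      obtain ⟨κ, hκ⟩ := coded_read hy.1.inf
      exact dec_of_coded hκ hy.1 (hBV _ hy.2)) with ⟨f, hf⟩ | ⟨g, g1, g2, g3⟩
  · left
    refine ⟨fun n => read (f n), fun x hx => ?_⟩
    obtain ⟨y, κ, hy, hκ⟩ := exists_code x (hBV x hx)
    obtain ⟨κ', hκ'⟩ := coded_read hy.inf
    have h1 : UIso (read y) x := hκ'.uniq hκ
    have h2 : read y ∈ B := (hinv _ _ h1).2 hx
    obtain ⟨n, hn⟩ := hf y ⟨hy, h2⟩
    refine ⟨n, uiso_trans ?_ h1⟩
    have h3 := key _ _ (uiso_symm hn) ⟨hy, h2⟩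
    obtain ⟨κ'', hκ''⟩ := coded_read h3.1.inf
    obtain ⟨σ, hσ⟩ := hn
    exact (hκ''.map (σ := σ) hσ).uniq hκ'
  · right
    have hm : Measurable (fun c => read (g c)) := meas_read.comp g1.measurable
    obtain ⟨h, h1, h2⟩ := cont_of_meas hm
    refine ⟨fun c => read (g (h c)), h2, fun c => (g2 (h c)).2, fun c d hcd => ?_⟩
    apply h1
    apply g3
    obtain ⟨κ, hκ⟩ := coded_read (g2 (h c)).1.inf
    obtain ⟨κ', hκ'⟩ := coded_read (g2 (h d)).1.inf
    obtain ⟨σ, hσ⟩ := hcd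
    exact good_uniq (g2 (h c)).1 (g2 (h d)).1 (hκ.pull (σ := σ) hσ) hκ'

end Pool.Agent.U97.NC
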